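import Pool.Agent.Helper11.D4.FrB
import Pool.Agent.Helper80.D4.Pt
import Pool.Agent.Helper48.D4.Cnt
import Pool.Agent.Helper48.D4.B0
import Pool.Agent.Helper87.D4.Zf

/-!
# Project D4 (MP_e1889a_ag): B1 for a torus of rank 2
-/

set_option autoImplicit false

namespace Pool.Agent.Helper11.D4

open Module Pool.Agent.Helper37.SD Pool.Agent.Helper20.TS Pool.Agent.Helper88.D4

theorem s_B1b (hW2 : S_W2n) (hSZ : S_Z) (hAI : S_AI) : S_B1b := by
  intro K _ _ R ξ J v a V H c hC hM hT χ α hα hχ hαH hlt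
  have hLI := Helper48.D4.s_B0 K R ξ 2 H c hC.frac hT
  obtain ⟨x, y, mx, my, hxR, hyR, hx0, hy0, hx, hy, hdet⟩ := Helper80.D4.exists_indep hC.frac hT
  obtain ⟨t, Z, ht, hZ, hZe⟩ :=
    hSZ K J H α hC.trdeg hC.alt hLI hαH x y mx my hx0 hy0 hx hy hdet
  obtain ⟨h, h1, h2, h3⟩ : ∃ h, (∀ i, H i h = 0) ∧ Z h = 0 ∧ ¬ Cst h := by
    by_contra hcon
    push Not at hcon
    obtain ⟨B, hB⟩ := hW2 K R ξ J v a V H c hC hM hT χ α hα hαH hχ hlt Z hZ hcon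
    obtain ⟨m, hm1, hm2, hm3⟩ := Helper48.D4.s_CNT K R ξ J v a V 2 H c hC (isMin_of_isMinF hM) hT
      (by norm_num) (by norm_num) B
    have h4 := hB m hm3 hm1
    rw [show 3 - 2 = 1 from rfl, pow_one] at hm2
    linarith
  obtain ⟨p, q, r, hb⟩ := (hAI K J hC.trdeg hC.alt).2.2 h h3
  refine ⟨h, h1, h3, -(Z p * (H 0 q * H 1 r - H 0 r * H 1 q) - Z q * (H 0 p * H 1 r - H 0 r * H 1 p)
    + Z r * (H 0 p * H 1 q - H 0 q * H 1 p)) / J p q r h, fun D => ?_⟩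
  have e := hZ D ![h, p, q, r]
  have hbrk : brk J ![h, p, q, r] = J p q r h := rfl
  rw [hbrk, Helper87.D4.dt_eq] at e
  simp only [Matrix.cons_val_zero, Matrix.cons_val_one, Matrix.cons_val, h1, h2] at e
  rw [div_mul_eq_mul_div, eq_div_iff hb]
  rw [e]
  ring

end Pool.Agent.Helper11.D4
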