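import Pool.Agent.Helper11.D4.FrB

/-!
# Project D4 (MP_e1889a_ag): B1 from the two cases
-/

set_option autoImplicit false

namespace Pool.Agent.Helper11.D4

open Pool.Agent.Helper88.D4

theorem s_B1n (ha : S_B1a) (hb : S_B1b) : S_B1n := by
  intro K _ _ R ξ J v a V r H c hC hM hT hr χ α hα hχ hαH hlt
  rcases hr.lt_or_eq with h | h
  · exact ha K R ξ J v a V r H c hC hM hT h χ α hα hαH
  · subst h
    exact hb K R ξ J v a V H c hC hM hT χ α hα hχ hαH hlt

end Pool.Agent.Helper11.D4
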