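import Pool.Agent.Helper11.D4.Ex2
import Pool.Agent.Helper88.D4.Stmts

/-!
# D4: S_EX1
-/

set_option autoImplicit false

namespace Pool.Agent.Helper11.D4

open Pool.Agent.Helper37.SD Pool.Agent.Helper20.TS Pool.Agent.Helper88.D4

theorem s_EX1 : S_EX1 := by
  intro K _ _ R hf hfg hn x hx
  have h1 : Algebra.FiniteType ℂ R := (Subalgebra.fg_iff_finiteType R).1 hfg
  have h2 : IsNoetherianRing R := Algebra.FiniteType.isNoetherianRing ℂ R
  obtain ⟨u, hu, hux⟩ := exists_pdiv R hf hn x hx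
  refine ⟨u, ⟨hu.int, hu.nonneg, hu.unif, fun y hy0 hy => ?_⟩, hux⟩
  obtain ⟨a, ha, s, hs, hs0, hus, rfl⟩ := hu.loc y hy0 hy
  refine ⟨s, hs, hs0, hus, ?_⟩
  rw [mul_div_cancel₀ _ hs0]
  exact ha

end Pool.Agent.Helper11.D4
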