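import Pool.Agent.Helper11.D4.W2p
import Pool.Agent.Helper11.D4.B1b
import Pool.Agent.Helper11.D4.B1n
import Pool.Agent.Helper80.D4.B1a
import Pool.Agent.Helper37.D4.HT

/-!
# Project D4 (MP_e1889a_ag): S_W2n and S_B1n
-/

set_option autoImplicit false

namespace Pool.Agent.Helper11.D4

open Pool.Agent.Helper88.D4

theorem b1n_of (hHT : S_HT) : S_B1n :=
  s_B1n (Helper80.D4.s_B1a Helper48.D4.s_B0 Helper48.D4.s_CNT Helper12.D4.s_AI)
    (s_B1b (w2n_of hHT) (Helper87.D4.s_Z Helper12.D4.s_JD Helper12.D4.s_AI) Helper12.D4.s_AI)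

theorem s_W2n0 : S_W2n := w2n_of Helper37.D4.s_HT

theorem s_B1n0 : S_B1n := b1n_of Helper37.D4.s_HT

end Pool.Agent.Helper11.D4
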