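import Pool.Agent.Helper11.D4.ExVal

/-!
# D4: S_EX2
-/

set_option autoImplicit false

namespace Pool.Agent.Helper11.D4

open Pool.Agent.Helper37.SD Pool.Agent.Helper20.TS Pool.Agent.Helper88.D4

variable {K : Type} [Field K] [Algebra ℂ K]

/-- common denominators in `ℂ[h]` -/
theorem exists_den (h : K) (G : Set K) (b : K)
    (hb : b ∈ Algebra.adjoin (IntermediateField.adjoin ℂ {h}) G) :
    ∃ q : Polynomial ℂ, Polynomial.aeval h q ≠ 0 ∧
      Polynomial.aeval h q * b ∈ Algebra.adjoin ℂ (insert h G) := by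
  have hq : ∀ q : Polynomial ℂ, Polynomial.aeval h q ∈ Algebra.adjoin ℂ (insert h G) := by
    intro q
    have h1 : h ∈ Algebra.adjoin ℂ (insert h G) := Algebra.subset_adjoin (Set.mem_insert _ _)
    have h2 := (Polynomial.aeval (⟨h, h1⟩ : Algebra.adjoin ℂ (insert h G)) q).2
    have h3 := Polynomial.aeval_algebraMap_apply K (⟨h, h1⟩ : Algebra.adjoin ℂ (insert h G)) q
    have h4 : Polynomial.aeval h q = ((Polynomial.aeval (⟨h, h1⟩ :
      Algebra.adjoin ℂ (insert h G)) q : Algebra.adjoin ℂ (insert h G)) : K) := h3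
    rw [h4]
    exact h2
  induction hb using Algebra.adjoin_induction with
  | mem y hy =>
    refine ⟨1, by simp, ?_⟩
    rw [map_one, one_mul]
    exact Algebra.subset_adjoin (Set.mem_insert_of_mem _ hy)
  | algebraMap e =>
    obtain ⟨r, q, hrq⟩ := (IntermediateField.mem_adjoin_simple_iff ℂ (e : K)).1 e.2
    by_cases h0 : Polynomial.aeval h q = 0
    · refine ⟨1, by simp, ?_⟩
      have h1 : algebraMap (IntermediateField.adjoin ℂ {h}) K e = 0 := by
        show (e : K) = 0
        rw [hrq, h0, div_zero]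
      rw [h1, mul_zero]
      exact zero_mem _
    · refine ⟨q, h0, ?_⟩
      have h1 : algebraMap (IntermediateField.adjoin ℂ {h}) K e =
          Polynomial.aeval h r / Polynomial.aeval h q := hrq
      rw [h1, mul_div_cancel₀ _ h0]
      exact hq r
  | add a b _ _ ha hb =>
    obtain ⟨q, hq0, hqa⟩ := ha
    obtain ⟨q', hq0', hqb⟩ := hb
    refine ⟨q * q', by rw [map_mul]; exact mul_ne_zero hq0 hq0', ?_⟩
    have h1 : Polynomial.aeval h (q * q') * (a + b) = Polynomial.aeval h q' *
        (Polynomial.aeval h q * a) + Polynomial.aeval h q * (Polynomial.aeval h q' * b) := by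
      rw [map_mul]
      ring
    rw [h1]
    exact add_mem (mul_mem (hq q') hqa) (mul_mem (hq q) hqb)
  | mul a b _ _ ha hb =>
    obtain ⟨q, hq0, hqa⟩ := ha
    obtain ⟨q', hq0', hqb⟩ := hb
    refine ⟨q * q', by rw [map_mul]; exact mul_ne_zero hq0 hq0', ?_⟩
    have h1 : Polynomial.aeval h (q * q') * (a * b) = (Polynomial.aeval h q * a) *
        (Polynomial.aeval h q' * b) := by
      rw [map_mul]
      ring
    rw [h1]
    exact mul_mem hqa hqb

theorem fg_adjoin (R : Subalgebra ℂ K) (hR : R.FG) (E : IntermediateField ℂ K) :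
    (Algebra.adjoin E (R : Set K)).FG := by
  obtain ⟨S, hS⟩ := hR
  refine ⟨S, le_antisymm ?_ ?_⟩
  · refine Algebra.adjoin_mono fun x hx => ?_
    show x ∈ (R : Set K)
    rw [← hS]
    exact Algebra.subset_adjoin hx
  · refine Algebra.adjoin_le fun x hx => ?_
    have h1 : x ∈ Algebra.adjoin ℂ (S : Set K) := by
      rw [hS]
      exact hx
    have h2 : ∀ y ∈ Algebra.adjoin ℂ (S : Set K), y ∈ Algebra.adjoin E (S : Set K) := by
      intro y hy
      induction hy using Algebra.adjoin_induction with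
      | mem y hy => exact Algebra.subset_adjoin hy
      | algebraMap z =>
        rw [IsScalarTower.algebraMap_apply ℂ E K]
        exact Subalgebra.algebraMap_mem _ _
      | add a b _ _ ha hb => exact add_mem ha hb
      | mul a b _ _ ha hb => exact mul_mem ha hb
    exact h2 x h1

/-- elements of `R` of value zero -/
def unitsAt (R : Subalgebra ℂ K) (u : RVal K) : Submonoid R where
  carrier := {s | (s : K) ≠ 0 ∧ u.val s = 0}
  mul_mem' := by
    rintro a b ⟨ha, ha'⟩ ⟨hb, hb'⟩
    refine ⟨mul_ne_zero ha hb, ?_⟩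
    show u.val ((a : K) * b) = 0
    rw [u.map_mul _ _ ha hb, ha', hb', add_zero]
  one_mem' := by
    refine ⟨one_ne_zero, ?_⟩
    have h1 := u.map_mul 1 1 one_ne_zero one_ne_zero
    rw [mul_one] at h1
    show u.val (1 : K) = 0
    linarith

/-- if `A` is contained in the localisation of the normal ring `R` at the elements of value zero, so
is everything integral over `A` -/
theorem loc_of_integral (R : Subalgebra ℂ K) (hf : IsFrac R) (hn : Normal R) (u : RVal K)
    {A : Type} [CommRing A] [Algebra A K]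
    (hA : ∀ a : A, ∃ s ∈ R, s ≠ 0 ∧ u.val s = 0 ∧ s * algebraMap A K a ∈ R) {y : K}
    (hy : IsIntegral A y) : ∃ s ∈ R, s ≠ 0 ∧ u.val s = 0 ∧ s * y ∈ R := by
  have iF : IsFractionRing R K := isFractionRing_of R hf
  have hM : unitsAt R u ≤ nonZeroDivisors R := by
    intro s hs
    refine mem_nonZeroDivisors_of_ne_zero fun h => hs.1 ?_
    rw [h]
    rfl
  let O := Localization.subalgebra.ofField K (unitsAt R u) hM
  have hAO : ∀ a : A, algebraMap A K a ∈ O := by
    intro a
    obtain ⟨s, hs, hs0, hus, hsa⟩ := hA a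
    refine ⟨⟨_, hsa⟩, ⟨s, hs⟩, ⟨hs0, hus⟩, ?_⟩
    show algebraMap A K a = s * algebraMap A K a * s⁻¹
    field_simp
  have h1 : IsIntegral O y := by
    refine isIntegral_mono (A := A) (B := O) ((algebraMap A K).codRestrict O.toSubring hAO)
      (fun a => rfl) hy
  obtain ⟨m, hm⟩ := IsIntegral.exists_multiple_integral_of_isLocalization (unitsAt R u) y h1
  refine ⟨m, (m : R).2, m.2.1, m.2.2, hn _ ?_⟩
  rw [Submonoid.smul_def, Algebra.smul_def] at hm
  exact hm

/-- the fractions of `ℂ(h)` in the localisation of `R` -/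
theorem loc_adjoin (R : Subalgebra ℂ K) (u : RVal K) (h g : K) (hg : g ∈ R) (hg0 : g ≠ 0)
    (hgu : u.val g = 0) (hhg : h * g ∈ R)
    (hu : ∀ q : Polynomial ℂ, Polynomial.aeval h q ≠ 0 → u.val (Polynomial.aeval h q) = 0)
    (y : K) (hy : y ∈ Algebra.adjoin (IntermediateField.adjoin ℂ {h}) (R : Set K)) :
    ∃ s ∈ R, s ≠ 0 ∧ u.val s = 0 ∧ s * y ∈ R := by
  have hone : u.val (1 : K) = 0 := by
    have h1 := u.map_mul 1 1 one_ne_zero one_ne_zero
    rw [mul_one] at h1
    linarith
  have hpow : ∀ n : ℕ, g ^ n ≠ 0 ∧ u.val (g ^ n) = 0 := by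
    intro n
    induction n with
    | zero => rw [pow_zero]; exact ⟨one_ne_zero, hone⟩
    | succ n ih =>
      rw [pow_succ]
      exact ⟨mul_ne_zero ih.1 hg0, by rw [u.map_mul _ _ ih.1 hg0, ih.2, hgu, add_zero]⟩
  have hpol : ∀ q : Polynomial ℂ, ∀ N : ℕ, q.natDegree ≤ N → g ^ N * Polynomial.aeval h q ∈ R := by
    intro q N hN
    rw [Polynomial.aeval_eq_sum_range' (Nat.lt_succ_of_le hN), Finset.mul_sum]
    refine sum_mem fun i hi => ?_
    have hi' : i ≤ N := Nat.lt_succ_iff.1 (Finset.mem_range.1 hi)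
    have h2 : g ^ N * (q.coeff i • h ^ i) = q.coeff i • ((h * g) ^ i * g ^ (N - i)) := by
      rw [mul_pow, mul_smul_comm]
      congr 1
      rw [mul_assoc, ← pow_add, Nat.add_sub_cancel' hi', mul_comm]
    rw [h2]
    exact R.smul_mem (mul_mem (pow_mem hhg i) (pow_mem hg _)) _
  induction hy using Algebra.adjoin_induction with
  | mem y hy => exact ⟨1, one_mem _, one_ne_zero, hone, by rw [one_mul]; exact hy⟩
  | algebraMap e =>
    obtain ⟨r, q, hrq⟩ := (IntermediateField.mem_adjoin_simple_iff ℂ (e : K)).1 e.2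
    by_cases h0 : Polynomial.aeval h q = 0
    · refine ⟨1, one_mem _, one_ne_zero, hone, ?_⟩
      have h1 : algebraMap (IntermediateField.adjoin ℂ {h}) K e = 0 := by
        show (e : K) = 0
        rw [hrq, h0, div_zero]
      rw [h1, mul_zero]
      exact zero_mem _
    · have h1 : algebraMap (IntermediateField.adjoin ℂ {h}) K e =
          Polynomial.aeval h r / Polynomial.aeval h q := hrq
      refine ⟨g ^ (max r.natDegree q.natDegree) * Polynomial.aeval h q,
        hpol q _ (le_max_right _ _), mul_ne_zero (hpow _).1 h0, ?_, ?_⟩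
      · rw [u.map_mul _ _ (hpow _).1 h0, (hpow _).2, hu q h0, add_zero]
      · rw [h1, mul_assoc, mul_div_cancel₀ _ h0]
        exact hpol r _ (le_max_left _ _)
  | add a b _ _ ha hb =>
    obtain ⟨s, hs, hs0, hus, hsa⟩ := ha
    obtain ⟨t, ht, ht0, hut, htb⟩ := hb
    refine ⟨s * t, mul_mem hs ht, mul_ne_zero hs0 ht0, by rw [u.map_mul _ _ hs0 ht0, hus, hut,
      add_zero], ?_⟩
    have h1 : s * t * (a + b) = t * (s * a) + s * (t * b) := by ring
    rw [h1]
    exact add_mem (mul_mem ht hsa) (mul_mem hs htb)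
  | mul a b _ _ ha hb =>
    obtain ⟨s, hs, hs0, hus, hsa⟩ := ha
    obtain ⟨t, ht, ht0, hut, htb⟩ := hb
    refine ⟨s * t, mul_mem hs ht, mul_ne_zero hs0 ht0, by rw [u.map_mul _ _ hs0 ht0, hus, hut,
      add_zero], ?_⟩
    have h1 : s * t * (a * b) = (s * a) * (t * b) := by ring
    rw [h1]
    exact mul_mem hsa htb

end Pool.Agent.Helper11.D4
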