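import Pool.Agent.Helper11.D4.EX2

/-!
# D4: S_EX2, the theorem
-/

set_option autoImplicit false

namespace Pool.Agent.Helper11.D4

open Pool.Agent.Helper37.SD Pool.Agent.Helper20.TS Pool.Agent.Helper88.D4

theorem s_EX2 : S_EX2 := by
  classical
  intro K _ _ R hf hfg hn hd h hh x hx
  have hRA : ∀ y ∈ R, y ∈ Algebra.adjoin (IntermediateField.adjoin ℂ {h}) (R : Set K) :=
    fun y hy => Algebra.subset_adjoin hy
  have hEA : ∀ e ∈ IntermediateField.adjoin ℂ {h},
      e ∈ Algebra.adjoin (IntermediateField.adjoin ℂ {h}) (R : Set K) :=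
    fun e he => Subalgebra.algebraMap_mem _ (⟨e, he⟩ : IntermediateField.adjoin ℂ {h})
  have iFr : IsFractionRing (Algebra.adjoin (IntermediateField.adjoin ℂ {h}) (R : Set K)) K := by
    refine IsFractionRing.of_field _ K fun z => ?_
    obtain ⟨a, ha, b, hb, hb0, rfl⟩ := hf z
    exact ⟨⟨a, hRA a ha⟩, ⟨b, hRA b hb⟩, rfl⟩
  have hch : CharZero (IntermediateField.adjoin ℂ {h}) :=
    charZero_of_injective_algebraMap (algebraMap ℂ (IntermediateField.adjoin ℂ {h})).injective
  have hx' : ¬ IsIntegral (Algebra.adjoin (IntermediateField.adjoin ℂ {h}) (R : Set K)) x := by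
    intro h1
    refine hx ?_
    exact isIntegral_mono ((algebraMap (Algebra.adjoin (IntermediateField.adjoin ℂ {h})
      (R : Set K)) K).codRestrict (Ah R h).toSubring fun a => (mem_Ah_iff R h a).2 a.2)
      (fun a => rfl) h1
  obtain ⟨s, z, w, π, hzA, hbase, hwx, hwA, hπ, hwπ, ⟨p, hp⟩, G, hG, hloc⟩ :=
    ex2_aux (Algebra.adjoin (IntermediateField.adjoin ℂ {h}) (R : Set K))
      (fg_adjoin R hfg _) iFr x hx'
  obtain rfl : s = 3 := trdeg_over hh hd z hbase
  have hwE : ∀ e ∈ IntermediateField.adjoin ℂ {h}, e ≠ 0 → w e = 1 := by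
    intro e he he0
    refine le_antisymm (hwA e (hEA e he)) ?_
    have h1 := hwA e⁻¹ (hEA e⁻¹ (inv_mem he))
    rw [map_inv₀] at h1
    exact (inv_le_one₀ (zero_lt_iff.2 ((Valuation.ne_zero_iff w).2 he0))).1 h1
  have hvc : ∀ t : ℂ, w (algebraMap ℂ K t) ≤ 1 := fun t =>
    hwA _ (hRA _ (R.algebraMap_mem t))
  have hpolE : ∀ q : Polynomial ℂ, Polynomial.aeval h q ∈ IntermediateField.adjoin ℂ {h} := by
    intro q
    have h1 := (Polynomial.aeval (IntermediateField.AdjoinSimple.gen ℂ h) q).2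
    have h2 := Polynomial.aeval_algebraMap_apply K (IntermediateField.AdjoinSimple.gen ℂ h) q
    rw [IntermediateField.AdjoinSimple.algebraMap_gen] at h2
    rw [h2]
    exact h1
  have hu0 : ∀ y, y ≠ 0 → w y = 1 → (toR w hvc).val y = 0 := by
    intro y _ hy
    rw [toR_val, hy, WithZero.log_one]
    simp
  have hx0 : x ≠ 0 := by
    rintro rfl
    rw [map_zero] at hwx
    exact not_lt_zero' hwx
  have hA0 : ∀ y ∈ Ah R h, y ≠ 0 → 0 ≤ (toR w hvc).val y := fun y hy hy0 =>
    (toR_nonneg_iff w hvc hy0).2 (hwA y ((mem_Ah_iff R h y).1 hy))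
  have hp0 : p ≠ 0 := by
    rintro rfl
    rw [map_zero] at hp
    exact WithZero.exp_ne_zero hp.symm
  have hval_p : (toR w hvc).val p = 1 := by
    rw [toR_val, hp, WithZero.log_exp]
    norm_num
  -- numerators and denominators
  have hnd : ∀ y, y ≠ 0 → 0 ≤ (toR w hvc).val y → ∃ a s : K,
      a ∈ Algebra.adjoin ℂ (insert h (G : Set K)) ∧ s ∈ Algebra.adjoin ℂ (insert h (G : Set K)) ∧
        s ≠ 0 ∧ w s = 1 ∧ s * y = a := by
    intro y hy0 hy
    obtain ⟨a, s, ha, hs, -, -, hws, hys⟩ := hloc y ((toR_nonneg_iff w hvc hy0).1 hy)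
    obtain ⟨q, hq, hqa⟩ := exists_den h G a ha
    obtain ⟨q', hq', hqs⟩ := exists_den h G s hs
    have hwq := hwE _ (hpolE q) hq
    have hwq' := hwE _ (hpolE q') hq'
    have hin : ∀ r : Polynomial ℂ, Polynomial.aeval h r ∈
        Algebra.adjoin ℂ (insert h (G : Set K)) := by
      intro r
      have h1 : h ∈ Algebra.adjoin ℂ (insert h (G : Set K)) :=
        Algebra.subset_adjoin (Set.mem_insert _ _)
      have h2 := (Polynomial.aeval (⟨h, h1⟩ : Algebra.adjoin ℂ (insert h (G : Set K))) r).2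
      have h3 := Polynomial.aeval_algebraMap_apply K
        (⟨h, h1⟩ : Algebra.adjoin ℂ (insert h (G : Set K))) r
      have h4 : Polynomial.aeval h r = ((Polynomial.aeval (⟨h, h1⟩ :
        Algebra.adjoin ℂ (insert h (G : Set K))) r : Algebra.adjoin ℂ (insert h (G : Set K))) :
          K) := h3
      rw [h4]
      exact h2
    refine ⟨Polynomial.aeval h q' * (Polynomial.aeval h q * a),
      Polynomial.aeval h q * (Polynomial.aeval h q' * s), mul_mem (hin q') hqa,
      mul_mem (hin q) hqs, ?_, ?_, ?_⟩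
    · have hs0 : s ≠ 0 := by
        rintro rfl
        rw [map_zero] at hws
        exact zero_ne_one hws
      exact mul_ne_zero hq (mul_ne_zero hq' hs0)
    · rw [map_mul, map_mul, hwq, hwq', hws, one_mul, one_mul]
    · rw [← hys]
      ring
  refine ⟨toR w hvc, ⟨fun y _ => ⟨-(WithZero.log (w y)), by rw [toR_val]; push_cast; rfl⟩,
    ⟨p, hp0, hval_p⟩, insert h G, fun g hg => ?_, fun y hy0 hy => ?_⟩, ?_, hA0, ?_, ?_⟩
  · by_cases hg0 : g = 0
    · exact Or.inl hg0
    · refine Or.inr ((toR_nonneg_iff w hvc hg0).2 ?_)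
      rcases Finset.mem_insert.1 hg with rfl | hg
      · exact hwA _ (hEA _ (IntermediateField.mem_adjoin_simple_self ℂ _))
      · exact hG g hg
  · obtain ⟨a, s, ha, hs, hs0, hws, hsy⟩ := hnd y hy0 hy
    rw [Finset.coe_insert]
    exact ⟨s, hs, hs0, hu0 s hs0 hws, by rw [hsy]; exact ha⟩
  · by_contra hge
    exact absurd ((toR_nonneg_iff w hvc hx0).1 (not_lt.1 hge)) (not_le.2 hwx)
  · obtain ⟨j, k, hjk⟩ := exists_coords (E := IntermediateField.adjoin ℂ {h})
      (IntermediateField.AdjoinSimple.gen ℂ h) (by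
        intro h1
        refine transcendental_of_not_cst hh ?_
        have h2 := IsAlgebraic.algebraMap (A := K) h1
        rwa [IntermediateField.AdjoinSimple.algebraMap_gen] at h2) π hπ
    refine ⟨z j, z k, (mem_Ah_iff R h _).2 (hzA j), (mem_Ah_iff R h _).2 (hzA k), ?_⟩
    intro P hP
    obtain ⟨h1, h2⟩ := hjk P hP
    have h3 : MvPolynomial.aeval ![h, z j, z k] P = MvPolynomial.aeval z (MvPolynomial.aeval
        ![(MvPolynomial.C (IntermediateField.AdjoinSimple.gen ℂ h) :
          MvPolynomial (Fin 3) (IntermediateField.adjoin ℂ {h})), MvPolynomial.X j,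
            MvPolynomial.X k] P) := by
      have h4 : (MvPolynomial.aeval ![h, z j, z k] : MvPolynomial (Fin 3) ℂ →ₐ[ℂ] K) =
          ((MvPolynomial.aeval z : MvPolynomial (Fin 3) (IntermediateField.adjoin ℂ {h})
            →ₐ[IntermediateField.adjoin ℂ {h}] K).restrictScalars ℂ).comp
          (MvPolynomial.aeval ![(MvPolynomial.C (IntermediateField.AdjoinSimple.gen ℂ h) :
            MvPolynomial (Fin 3) (IntermediateField.adjoin ℂ {h})), MvPolynomial.X j,
              MvPolynomial.X k]) := by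
        refine MvPolynomial.algHom_ext fun i => ?_
        rw [AlgHom.comp_apply, MvPolynomial.aeval_X, MvPolynomial.aeval_X]
        fin_cases i
        · show h = MvPolynomial.aeval z (MvPolynomial.C (IntermediateField.AdjoinSimple.gen ℂ h))
          rw [MvPolynomial.aeval_C]
          exact (IntermediateField.AdjoinSimple.algebraMap_gen ℂ h).symm
        · show z j = MvPolynomial.aeval z (MvPolynomial.X j)
          rw [MvPolynomial.aeval_X]
        · show z k = MvPolynomial.aeval z (MvPolynomial.X k)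
          rw [MvPolynomial.aeval_X]
      exact DFunLike.congr_fun h4 P
    rw [h3]
    have h5 : MvPolynomial.aeval z (MvPolynomial.aeval
        ![(MvPolynomial.C (IntermediateField.AdjoinSimple.gen ℂ h) :
          MvPolynomial (Fin 3) (IntermediateField.adjoin ℂ {h})), MvPolynomial.X j,
            MvPolynomial.X k] P) ≠ 0 := fun h6 => h1 (hbase.1.eq_zero_of_aeval_eq_zero _ h6)
    refine ⟨h5, hu0 _ h5 (le_antisymm (hwA _ ?_) ?_)⟩
    · exact (MvPolynomial.aeval (R := IntermediateField.adjoin ℂ {h}) (fun i => (⟨z i, hzA i⟩ :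
        Algebra.adjoin (IntermediateField.adjoin ℂ {h}) (R : Set K))) _).2 |> fun h7 => by
          have h8 := MvPolynomial.aeval_algebraMap_apply K (fun i => (⟨z i, hzA i⟩ :
            Algebra.adjoin (IntermediateField.adjoin ℂ {h}) (R : Set K)))
            (MvPolynomial.aeval
              ![(MvPolynomial.C (IntermediateField.AdjoinSimple.gen ℂ h) :
                MvPolynomial (Fin 3) (IntermediateField.adjoin ℂ {h})), MvPolynomial.X j,
                  MvPolynomial.X k] P)
          have h9 : MvPolynomial.aeval z (MvPolynomial.aeval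
              ![(MvPolynomial.C (IntermediateField.AdjoinSimple.gen ℂ h) :
                MvPolynomial (Fin 3) (IntermediateField.adjoin ℂ {h})), MvPolynomial.X j,
                  MvPolynomial.X k] P) = _ := h8
          rw [h9]
          exact h7
    · by_contra h6
      exact h2 ((hwπ _).1 (not_le.1 h6))
  · intro g hg hg0 hhg hgu
    have hpolu : ∀ q : Polynomial ℂ, Polynomial.aeval h q ≠ 0 →
        (toR w hvc).val (Polynomial.aeval h q) = 0 := fun q hq =>
      hu0 _ hq (hwE _ (hpolE q) hq)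
    have hAloc : ∀ a : Algebra.adjoin (IntermediateField.adjoin ℂ {h}) (R : Set K),
        ∃ s ∈ R, s ≠ 0 ∧ (toR w hvc).val s = 0 ∧ s * algebraMap _ K a ∈ R := fun a =>
      loc_adjoin R (toR w hvc) h g hg hg0 hgu hhg hpolu a a.2
    have hloc' : ∀ y, y ≠ 0 → 0 ≤ (toR w hvc).val y →
        ∃ s ∈ R, s ≠ 0 ∧ (toR w hvc).val s = 0 ∧ s * y ∈ R := by
      intro y hy0 hy
      obtain ⟨a, b, -, -, ha, hb, hwb, hyb⟩ := hloc y ((toR_nonneg_iff w hvc hy0).1 hy)
      have hb0 : b ≠ 0 := by
        rintro rfl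
        rw [map_zero] at hwb
        exact zero_ne_one hwb
      obtain ⟨m, hm, hm0, hum, hma⟩ := loc_of_integral R hf hn (toR w hvc) hAloc ha
      obtain ⟨m', hm', hm0', hum', hmb⟩ := loc_of_integral R hf hn (toR w hvc) hAloc hb
      refine ⟨m * (m' * b), mul_mem hm hmb, mul_ne_zero hm0 (mul_ne_zero hm0' hb0), ?_, ?_⟩
      · rw [(toR w hvc).map_mul _ _ hm0 (mul_ne_zero hm0' hb0), (toR w hvc).map_mul _ _ hm0' hb0,
          hum, hum', hu0 b hb0 hwb, add_zero, add_zero]
      · have h1 : m * (m' * b) * y = m' * (m * a) := by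
          rw [← hyb]
          ring
        rw [h1]
        exact mul_mem hm' hma
    refine ⟨fun y _ => ⟨-(WithZero.log (w y)), by rw [toR_val]; push_cast; rfl⟩,
      fun y hy hy0 => hA0 y ((le_sup_left : R ≤ Ah R h) hy) hy0, ?_, hloc'⟩
    obtain ⟨s, hs, hs0, hus, hsp⟩ := hloc' p hp0 (by rw [hval_p]; norm_num)
    refine ⟨s * p, hsp, mul_ne_zero hs0 hp0, ?_⟩
    rw [(toR w hvc).map_mul _ _ hs0 hp0, hus, hval_p, zero_add]

end Pool.Agent.Helper11.D4
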