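import Pool.Agent.Helper37.SD.Defs

/-!
# Divisorial valuations of a normal Noetherian ring
-/

set_option autoImplicit false

namespace Pool.Agent.Helper11.D4

open Pool.Agent.Helper37.SD

section Comm

variable {B K : Type*} [CommRing B] [Field K] [Algebra B K]

/-- the conductor of `y` -/
def col (B : Type*) {K : Type*} [CommRing B] [Field K] [Algebra B K] (y : K) : Ideal B where
  carrier := {b | algebraMap B K b * y ∈ (algebraMap B K).range}
  add_mem' := by
    intro a b ha hb
    show algebraMap B K (a + b) * y ∈ (algebraMap B K).range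
    rw [map_add, add_mul]
    exact add_mem ha hb
  zero_mem' := by
    show algebraMap B K 0 * y ∈ (algebraMap B K).range
    rw [map_zero, zero_mul]
    exact zero_mem _
  smul_mem' := by
    intro a b hb
    show algebraMap B K (a * b) * y ∈ (algebraMap B K).range
    rw [map_mul, mul_assoc]
    exact mul_mem ⟨a, rfl⟩ hb

theorem mem_col {y : K} {b : B} : b ∈ col B y ↔ algebraMap B K b * y ∈ (algebraMap B K).range :=
  Iff.rfl

/-- a maximal conductor among the conductors of the multiples of `x` -/
theorem exists_max_col [IsNoetherianRing B] (x : K) (hx : x ∉ (algebraMap B K).range) :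
    ∃ c : B, x * algebraMap B K c ∉ (algebraMap B K).range ∧
      ∀ a : B, x * algebraMap B K c * algebraMap B K a ∉ (algebraMap B K).range →
        col B (x * algebraMap B K c * algebraMap B K a) ≤ col B (x * algebraMap B K c) := by
  let F : Set (Ideal B) := {I | ∃ c : B, x * algebraMap B K c ∉ (algebraMap B K).range ∧
    I = col B (x * algebraMap B K c)}
  have hF : F.Nonempty := ⟨_, 1, by rwa [map_one, mul_one], rfl⟩
  obtain ⟨I, ⟨c, hc, rfl⟩, hmax⟩ := set_has_maximal_iff_noetherian.2
    (inferInstanceAs (IsNoetherian B B)) F hF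
  refine ⟨c, hc, fun a ha => ?_⟩
  have h1 : col B (x * algebraMap B K c * algebraMap B K a) ∈ F :=
    ⟨c * a, by rwa [map_mul, ← mul_assoc], by rw [map_mul, ← mul_assoc]⟩
  have h2 : col B (x * algebraMap B K c) ≤ col B (x * algebraMap B K c * algebraMap B K a) := by
    intro b hb
    rw [mem_col] at hb ⊢
    rw [← mul_assoc]
    exact mul_mem hb ⟨a, rfl⟩
  by_contra h3
  exact hmax _ h1 (lt_of_le_not_ge h2 h3)

/-- the conductor is prime -/
theorem col_prime {y : K} (hy : y ∉ (algebraMap B K).range)
    (hmax : ∀ a : B, y * algebraMap B K a ∉ (algebraMap B K).range →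
      col B (y * algebraMap B K a) ≤ col B y) : (col B y).IsPrime := by
  refine ⟨?_, ?_⟩
  · intro h
    rw [Ideal.eq_top_iff_one, mem_col, map_one, one_mul] at h
    exact hy h
  · intro a b hab
    by_contra! h
    obtain ⟨h1, h2⟩ := h
    have h3 : y * algebraMap B K a ∉ (algebraMap B K).range := by
      rw [mul_comm]
      exact h1
    refine h2 (hmax a h3 ?_)
    rw [mem_col] at hab ⊢
    have h4 : algebraMap B K b * (y * algebraMap B K a) = algebraMap B K (a * b) * y := by
      rw [map_mul]
      ring
    rwa [h4]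

/-- a nonintegral `y` moves its conductor out of itself -/
theorem exists_unit [IsNoetherianRing B] [IsDomain B] [IsFractionRing B K] {y : K}
    (hy : ¬ IsIntegral B y) :
    ∃ p ∈ col B y, ∃ u : B, u ∉ col B y ∧ algebraMap B K p * y = algebraMap B K u := by
  by_contra! h
  refine hy ?_
  let N : Submodule B K := Submodule.map (Algebra.linearMap B K) (col B y : Submodule B B)
  have h0 : N ≠ ⊥ := by
    obtain ⟨⟨a, s⟩, has⟩ := IsLocalization.surj (nonZeroDivisors B) y
    intro hN
    have h1 : (s : B) ∈ col B y := by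
      rw [mem_col]
      refine ⟨a, ?_⟩
      rw [← has]
      exact mul_comm _ _
    have h2 : algebraMap B K s ∈ N := ⟨s, h1, rfl⟩
    rw [hN, Submodule.mem_bot] at h2
    exact nonZeroDivisors.coe_ne_zero s ((map_eq_zero_iff _ (IsFractionRing.injective B K)).1 h2)
  refine isIntegral_of_smul_mem_submodule N h0 ?_ y ?_
  · exact Submodule.FG.map _ ((isNoetherianRing_iff_ideal_fg B).1 inferInstance (col B y))
  · rintro _ ⟨p, hp, rfl⟩
    obtain ⟨u, hu⟩ := (mem_col.1 hp : algebraMap B K p * y ∈ (algebraMap B K).range)
    have h3 : u ∈ col B y := by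
      by_contra h4
      exact h p hp u h4 hu.symm
    refine ⟨u, h3, ?_⟩
    show algebraMap B K u = y • algebraMap B K p
    rw [hu, smul_eq_mul, mul_comm]

end Comm

section Dvr

variable {B K : Type} [CommRing B] [IsDomain B] [IsNoetherianRing B] [Field K] [Algebra B K]
  [IsFractionRing B K]

/-- the discrete valuation attached to `(P, p, u)` with `u P ⊆ p B` -/
theorem exists_valuation (P : Ideal B) [hP : P.IsPrime] (p u : B) (hp : p ∈ P) (hu : u ∉ P)
    (hp0 : p ≠ 0) (h : ∀ q ∈ P, ∃ w : B, u * q = p * w) :
    ∃ v : Valuation K (WithZero (Multiplicative ℤ)), (∀ b : B, v (algebraMap B K b) ≤ 1) ∧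
      (∀ b : B, v (algebraMap B K b) < 1 ↔ b ∈ P) ∧
      v (algebraMap B K p) = WithZero.exp (-1 : ℤ) ∧
      ∀ y : K, v y ≤ 1 → ∃ a s : B, s ∉ P ∧ y * algebraMap B K s = algebraMap B K a := by
  have hS : P.primeCompl ≤ nonZeroDivisors B := by
    intro s hs
    refine mem_nonZeroDivisors_of_ne_zero ?_
    rintro rfl
    exact hs P.zero_mem
  let O := Localization.subalgebra.ofField K P.primeCompl hS
  have iO : IsLocalization P.primeCompl O := inferInstance
  have iF : IsFractionRing O K := inferInstance
  have iAt : IsLocalization.AtPrime O P := iO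
  have iL : IsLocalRing O := IsLocalization.AtPrime.isLocalRing O P
  have iN : IsNoetherianRing O := IsLocalization.isNoetherianRing P.primeCompl O inferInstance
  have hmap : Ideal.map (algebraMap B O) P = IsLocalRing.maximalIdeal O :=
    IsLocalization.AtPrime.map_eq_maximalIdeal P O
  have hm : IsLocalRing.maximalIdeal O = Ideal.span {algebraMap B O p} := by
    rw [← hmap]
    refine le_antisymm ?_ ?_
    · rw [Ideal.map_le_iff_le_comap]
      intro q hq
      obtain ⟨w, hw⟩ := h q hq
      rw [Ideal.mem_comap, Ideal.mem_span_singleton]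
      have hunit : IsUnit (algebraMap B O u) := (IsLocalization.AtPrime.isUnit_to_map_iff O P u).2 hu
      obtain ⟨t, ht⟩ := hunit
      refine ⟨(t⁻¹ : Oˣ) * algebraMap B O w, ?_⟩
      have h1 : algebraMap B O u * algebraMap B O q = algebraMap B O p * algebraMap B O w := by
        rw [← map_mul, ← map_mul, hw]
      rw [← ht] at h1
      have h2 : algebraMap B O q = (t⁻¹ : Oˣ) * (t * algebraMap B O q) := by
        rw [← mul_assoc, Units.inv_mul, one_mul]
      rw [h2, h1]
      ring
    · rw [Ideal.span_singleton_le_iff_mem]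
      exact Ideal.mem_map_of_mem _ hp
  have hinj : Function.Injective (algebraMap B O) :=
    IsLocalization.injective O hS
  have hpO : algebraMap B O p ≠ 0 := by
    rw [Ne, map_eq_zero_iff _ hinj]
    exact hp0
  have iD : IsDedekindDomain O :=
    ((tfae_of_isNoetherianRing_of_isLocalRing_of_isDomain O).out 2 4).2
      (Submodule.IsPrincipal.mk ⟨_, hm⟩)
  have hbot : IsLocalRing.maximalIdeal O ≠ ⊥ := by
    rw [hm, Ne, Ideal.span_singleton_eq_bot]
    exact hpO
  let V : IsDedekindDomain.HeightOneSpectrum O := ⟨IsLocalRing.maximalIdeal O, inferInstance, hbot⟩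
  have hmem : ∀ b : B, algebraMap B O b ∈ V.asIdeal ↔ b ∈ P := fun b =>
    IsLocalization.AtPrime.to_map_mem_maximal_iff O P b iL
  have htow : ∀ b : B, algebraMap B K b = algebraMap O K (algebraMap B O b) := fun b =>
    IsScalarTower.algebraMap_apply B O K b
  refine ⟨V.valuation K, ?_, ?_, ?_, ?_⟩
  · intro b
    rw [htow]
    exact V.valuation_le_one _
  · intro b
    rw [htow, V.valuation_lt_one_iff_mem]
    exact hmem b
  · rw [htow, V.valuation_of_algebraMap]
    exact V.intValuation_singleton hpO hm
  · intro y hy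
    obtain ⟨n, d, hnd⟩ := V.exists_primeCompl_mul_eq_of_integer y hy
    obtain ⟨⟨a, s⟩, has⟩ := IsLocalization.surj P.primeCompl n
    obtain ⟨⟨a', s'⟩, has'⟩ := IsLocalization.surj P.primeCompl (d : O)
    have hd : a' ∉ P := by
      intro h1
      have h2 := (hmem a').2 h1
      rw [← has'] at h2
      have hpr : V.asIdeal.IsPrime := V.isPrime
      rcases hpr.mem_or_mem h2 with h3 | h3
      · exact d.2 h3
      · exact s'.2 ((hmem s').1 h3)
    refine ⟨a * s', a' * s, ?_, ?_⟩
    · intro h1
      rcases hP.mem_or_mem h1 with h2 | h2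
      · exact hd h2
      · exact s.2 h2
    · have e1 := congrArg (algebraMap O K) has
      have e2 := congrArg (algebraMap O K) has'
      simp only [map_mul] at e1 e2 ⊢
      rw [htow, htow, htow, htow, ← e1, ← e2, ← hnd]
      ring

end Dvr

end Pool.Agent.Helper11.D4
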