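import Pool.Agent.Helper11.D4.Ex

/-!
# Divisorial valuations of a normal Noetherian ring, as real valuations
-/

set_option autoImplicit false

namespace Pool.Agent.Helper11.D4

open Pool.Agent.Helper37.SD

variable {K : Type} [Field K] [Algebra ℂ K]

/-- the real valuation of a discrete valuation which is `≤ 1` on a `ℂ`-algebra -/
noncomputable def toR (v : Valuation K (WithZero (Multiplicative ℤ)))
    (hv : ∀ z : ℂ, v (algebraMap ℂ K z) ≤ 1) : RVal K where
  val y := -((WithZero.log (v y) : ℤ) : ℝ)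
  map_mul := by
    intro x y hx hy
    rw [map_mul, WithZero.log_mul ((Valuation.ne_zero_iff v).2 hx) ((Valuation.ne_zero_iff v).2 hy)]
    push_cast
    ring
  map_add := by
    intro x y hx hy hxy
    have h1 := v.map_add x y
    have hx' := (Valuation.ne_zero_iff v).2 hx
    have hy' := (Valuation.ne_zero_iff v).2 hy
    have hxy' := (Valuation.ne_zero_iff v).2 hxy
    rcases le_max_iff.1 h1 with h | h
    · have h2 := (WithZero.log_le_log hxy' hx').2 h
      have h3 : ((WithZero.log (v (x + y)) : ℤ) : ℝ) ≤ ((WithZero.log (v x) : ℤ) : ℝ) := by exact_mod_cast h2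
      exact (min_le_left _ _).trans (neg_le_neg h3)
    · have h2 := (WithZero.log_le_log hxy' hy').2 h
      have h3 : ((WithZero.log (v (x + y)) : ℤ) : ℝ) ≤ ((WithZero.log (v y) : ℤ) : ℝ) := by exact_mod_cast h2
      exact (min_le_right _ _).trans (neg_le_neg h3)
  map_const := by
    intro z hz
    have h1 : v (algebraMap ℂ K z) = 1 := by
      refine le_antisymm (hv z) ?_
      have h2 := hv z⁻¹
      rw [map_inv₀, map_inv₀] at h2
      have h3 : v (algebraMap ℂ K z) ≠ 0 := (Valuation.ne_zero_iff v).2 ((map_ne_zero _).2 hz)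
      exact (inv_le_one₀ (zero_lt_iff.2 h3)).1 h2
    rw [h1, WithZero.log_one]
    simp

theorem toR_val (v : Valuation K (WithZero (Multiplicative ℤ)))
    (hv : ∀ z : ℂ, v (algebraMap ℂ K z) ≤ 1) (y : K) :
    (toR v hv).val y = -((WithZero.log (v y) : ℤ) : ℝ) := rfl

theorem toR_nonneg_iff (v : Valuation K (WithZero (Multiplicative ℤ)))
    (hv : ∀ z : ℂ, v (algebraMap ℂ K z) ≤ 1) {y : K} (hy : y ≠ 0) :
    0 ≤ (toR v hv).val y ↔ v y ≤ 1 := by
  have h1 := (Valuation.ne_zero_iff v).2 hy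
  rw [toR_val, neg_nonneg]
  have h2 := WithZero.log_le_log h1 (one_ne_zero (α := WithZero (Multiplicative ℤ)))
  rw [WithZero.log_one] at h2
  rw [← h2]
  exact_mod_cast Iff.rfl

theorem toR_pos_iff (v : Valuation K (WithZero (Multiplicative ℤ)))
    (hv : ∀ z : ℂ, v (algebraMap ℂ K z) ≤ 1) {y : K} (hy : y ≠ 0) :
    0 < (toR v hv).val y ↔ v y < 1 := by
  have h1 := (Valuation.ne_zero_iff v).2 hy
  rw [toR_val, neg_pos]
  have h2 := WithZero.log_lt_log h1 (one_ne_zero (α := WithZero (Multiplicative ℤ)))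
  rw [WithZero.log_one] at h2
  rw [← h2]
  exact_mod_cast Iff.rfl

/-- `u` is the valuation of a prime divisor of `Spec B` -/
structure IsPDiv (B : Subalgebra ℂ K) (u : RVal K) : Prop where
  int : ∀ y, y ≠ 0 → ∃ n : ℤ, u.val y = n
  nonneg : ∀ b ∈ B, b ≠ 0 → 0 ≤ u.val b
  unif : ∃ p ∈ B, p ≠ 0 ∧ u.val p = 1
  loc : ∀ y, y ≠ 0 → 0 ≤ u.val y → ∃ a ∈ B, ∃ s ∈ B, s ≠ 0 ∧ u.val s = 0 ∧ y = a / s

theorem isFractionRing_of (B : Subalgebra ℂ K) (hf : IsFrac B) : IsFractionRing B K := by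
  refine IsFractionRing.of_field B K fun z => ?_
  obtain ⟨a, ha, b, hb, hb0, rfl⟩ := hf z
  exact ⟨⟨a, ha⟩, ⟨b, hb⟩, rfl⟩

/-- **EX1.** an element outside a normal Noetherian algebra `B` has a pole along a prime divisor of
`Spec B` -/
theorem exists_pdiv (B : Subalgebra ℂ K) [IsNoetherianRing B] (hf : IsFrac B)
    (hn : ∀ x : K, IsIntegral B x → x ∈ B) (x : K) (hx : x ∉ B) :
    ∃ u : RVal K, IsPDiv B u ∧ u.val x < 0 := by
  have iF : IsFractionRing B K := isFractionRing_of B hf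
  have hrange : ∀ y : K, y ∈ (algebraMap B K).range ↔ y ∈ B := by
    intro y
    constructor
    · rintro ⟨b, rfl⟩
      exact b.2
    · intro h
      exact ⟨⟨y, h⟩, rfl⟩
  obtain ⟨c, hc, hmax⟩ := exists_max_col (B := B) x (fun h => hx ((hrange x).1 h))
  have hP : (col B (x * algebraMap B K c)).IsPrime := col_prime hc hmax
  have hint : ¬ IsIntegral B (x * algebraMap B K c) := fun h => hc ((hrange _).2 (hn _ h))
  obtain ⟨p, hp, u, hu, hpu⟩ := exists_unit hint
  have hu0 : u ≠ 0 := by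
    rintro rfl
    exact hu (Ideal.zero_mem _)
  have hinj : Function.Injective (algebraMap B K) := IsFractionRing.injective B K
  have hp0 : p ≠ 0 := by
    rintro rfl
    rw [map_zero, zero_mul] at hpu
    exact hu0 ((map_eq_zero_iff _ hinj).1 hpu.symm)
  have hpq : ∀ q ∈ col B (x * algebraMap B K c), ∃ w : B, u * q = p * w := by
    intro q hq
    obtain ⟨w, hw⟩ := mem_col.1 hq
    refine ⟨w, hinj ?_⟩
    rw [map_mul, map_mul, ← hpu, hw]
    ring
  obtain ⟨v, hv1, hv2, hv3, hv4⟩ := exists_valuation (K := K) (col B (x * algebraMap B K c)) p u hp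
    hu hp0 hpq
  have hvc : ∀ z : ℂ, v (algebraMap ℂ K z) ≤ 1 := fun z => hv1 (algebraMap ℂ B z)
  have hp0' : (p : K) ≠ 0 := fun h => hp0 (Subtype.ext h)
  refine ⟨toR v hvc, ⟨fun y _ => ⟨-(WithZero.log (v y)), by rw [toR_val]; push_cast; rfl⟩,
    fun b hb hb0 => ?_, ⟨p, p.2, hp0', ?_⟩, fun y hy0 hy => ?_⟩, ?_⟩
  · exact (toR_nonneg_iff v hvc hb0).2 (hv1 ⟨b, hb⟩)
  · rw [toR_val]
    have h1 : v (p : K) = WithZero.exp (-1 : ℤ) := hv3
    rw [h1, WithZero.log_exp]
    norm_num
  · obtain ⟨a, s, hs, has⟩ := hv4 y ((toR_nonneg_iff v hvc hy0).1 hy)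
    have hs0 : (s : K) ≠ 0 := by
      intro h
      have : s = 0 := Subtype.ext h
      rw [this] at hs
      exact hs (Ideal.zero_mem _)
    refine ⟨a, a.2, s, s.2, hs0, ?_, ?_⟩
    · have h1 : v (s : K) = 1 := by
        refine le_antisymm (hv1 s) ?_
        by_contra h2
        exact hs ((hv2 s).1 (lt_of_not_ge h2))
      rw [toR_val, h1, WithZero.log_one]
      simp
    · rw [eq_div_iff hs0]
      exact has
  · have hx0 : x ≠ 0 := by
      rintro rfl
      exact hx B.zero_mem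
    by_contra hge
    have h1 := (toR_nonneg_iff v hvc hx0).1 (not_lt.1 hge)
    have h2 : v (algebraMap B K p) * v (x * algebraMap B K c) = v (algebraMap B K u) := by
      rw [← map_mul, hpu]
    have h3 : v (algebraMap B K u) = 1 := by
      refine le_antisymm (hv1 u) ?_
      by_contra h2
      exact hu ((hv2 u).1 (lt_of_not_ge h2))
    have h4 : v (x * algebraMap B K c) ≤ 1 := by
      rw [map_mul]
      exact mul_le_one' h1 (hv1 c)
    have h5 : v (algebraMap B K p) < 1 := (hv2 p).2 hp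
    rw [h3] at h2
    exact absurd h2 (ne_of_lt (mul_lt_one_of_lt_of_le h5 h4))

end Pool.Agent.Helper11.D4
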