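import Pool.Agent.Helper11.D4.Rind

/-!
# D4: a divisorial valuation over a field `E`
-/

set_option autoImplicit false

namespace Pool.Agent.Helper11.D4

open MvPolynomial

theorem ex2_aux {K E : Type} [Field K] [Field E] [CharZero E] [Algebra E K] (A : Subalgebra E K)
    (hfg : A.FG) (iFr : IsFractionRing A K) (x : K) (hx : ¬ IsIntegral A x) :
    ∃ (s : ℕ) (z : Fin s → K) (w : Valuation K (WithZero (Multiplicative ℤ)))
      (π : MvPolynomial (Fin s) E), (∀ i, z i ∈ A) ∧ IsTranscendenceBasis E z ∧ 1 < w x ∧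
      (∀ a ∈ A, w a ≤ 1) ∧ Prime π ∧ (∀ f : MvPolynomial (Fin s) E, w (aeval z f) < 1 ↔ π ∣ f) ∧
      (∃ p, w p = WithZero.exp (-1 : ℤ)) ∧ ∃ G : Finset K, (∀ g ∈ G, w g ≤ 1) ∧
        ∀ y, w y ≤ 1 → ∃ a s : K, a ∈ Algebra.adjoin E (G : Set K) ∧
          s ∈ Algebra.adjoin E (G : Set K) ∧ IsIntegral A a ∧ IsIntegral A s ∧ w s = 1 ∧
            y * s = a := by
  classical
  have iFT : Algebra.FiniteType E A := (Subalgebra.fg_iff_finiteType A).1 hfg
  obtain ⟨s, g, hg, hfin⟩ := exists_finite_inj_algHom_of_fg E A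
  let P := MvPolynomial (Fin s) E
  let iPA : Algebra P A := g.toRingHom.toAlgebra
  have hfinM : Module.Finite P A := hfin
  let iPK : Algebra P K := ((algebraMap A K).comp (algebraMap P A)).toAlgebra
  have tPAK : IsScalarTower P A K := IsScalarTower.of_algebraMap_eq fun _ => rfl
  have hinjPA : Function.Injective (algebraMap P A) := hg
  have hinjPK : Function.Injective (algebraMap P K) :=
    (IsFractionRing.injective A K).comp hinjPA
  have iTF : FaithfulSMul P K := (faithfulSMul_iff_algebraMap_injective P K).2 hinjPK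
  let F := FractionRing P
  let iFK : Algebra F K := FractionRing.liftAlgebra P K
  have tPFK : IsScalarTower P F K := FractionRing.isScalarTower_liftAlgebra P K
  have iFin : FiniteDimensional F K := finDim P A K F
  have hintA : Algebra.IsIntegral P A := Algebra.IsIntegral.of_finite P A
  let z : Fin s → K := fun i => (g (X i) : K)
  have hz : ∀ f : P, aeval z f = algebraMap P K f := by
    intro f
    have h1 : (aeval z : P →ₐ[E] K) = A.val.comp g := by
      refine MvPolynomial.algHom_ext fun i => ?_
      rw [aeval_X]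
      rfl
    rw [h1]
    rfl
  have hnot : ¬ IsIntegral P x := fun h1 => hx h1.tower_top
  obtain ⟨π, w, hπ, hwx, hwint, hwπ, hunif, hloc⟩ := exists_val (P := P) F x hnot
  have hAint : ∀ a : A, IsIntegral P (a : K) := fun a => (hintA.isIntegral a).algebraMap
  have hind : AlgebraicIndependent E z := by
    intro p q hpq
    exact hinjPK (by rw [← hz, ← hz]; exact hpq)
  have hbase : IsTranscendenceBasis E z := by
    rw [hind.isTranscendenceBasis_iff_isAlgebraic]
    refine ⟨fun y => ?_⟩
    have h2 : ∀ a : A, IsIntegral (Algebra.adjoin E (Set.range z)) (a : K) := by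
      intro a
      refine isIntegral_mono (A := P) (B := Algebra.adjoin E (Set.range z))
        ((aeval z : P →ₐ[E] K).codRestrict (Algebra.adjoin E (Set.range z)) (fun f => ?_)).toRingHom
        (fun f => hz f) (hAint a)
      rw [Algebra.adjoin_range_eq_range_aeval]
      exact ⟨f, rfl⟩
    obtain ⟨⟨a, b⟩, hab⟩ := IsLocalization.surj (nonZeroDivisors A) y
    have hb0 : ((b : A) : K) ≠ 0 := by
      intro h3
      exact nonZeroDivisors.coe_ne_zero b (Subtype.ext h3)
    have h4 : y = (a : K) * ((b : A) : K)⁻¹ := by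
      rw [eq_mul_inv_iff_mul_eq₀ hb0]
      exact hab
    rw [h4]
    exact (h2 a).isAlgebraic.mul (h2 b).isAlgebraic.inv
  have iNoeth : IsNoetherian P (integralClosure P K) :=
    IsIntegralClosure.isNoetherian P F K (integralClosure P K)
  obtain ⟨T, hT⟩ := iNoeth.noetherian ⊤
  let G : Finset K := (Finset.univ.image z) ∪ (T.image (Subtype.val : integralClosure P K → K))
  have hzG : ∀ f : P, algebraMap P K f ∈ Algebra.adjoin E (G : Set K) := by
    intro f
    rw [← hz]
    have h5 : (aeval z f : K) ∈ Algebra.adjoin E (Set.range z) := by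
      rw [Algebra.adjoin_range_eq_range_aeval]
      exact ⟨f, rfl⟩
    refine Algebra.adjoin_mono ?_ h5
    rintro _ ⟨i, rfl⟩
    rw [Finset.mem_coe, Finset.mem_union]
    exact Or.inl (Finset.mem_image_of_mem _ (Finset.mem_univ i))
  have hCG : ∀ c : integralClosure P K, (c : K) ∈ Algebra.adjoin E (G : Set K) := by
    intro c
    have hc : c ∈ Submodule.span P (T : Set (integralClosure P K)) := by
      rw [hT]
      trivial
    induction hc using Submodule.span_induction with
    | mem y hy =>
      refine Algebra.subset_adjoin ?_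
      rw [Finset.mem_coe, Finset.mem_union]
      exact Or.inr (Finset.mem_image_of_mem _ hy)
    | zero => exact zero_mem _
    | add y y' _ _ hy hy' => exact add_mem hy hy'
    | smul p y _ hy =>
      have h6 : ((p • y : integralClosure P K) : K) = algebraMap P K p * (y : K) := by
        rw [← Algebra.smul_def]
        rfl
      rw [h6]
      exact mul_mem (hzG p) hy
  refine ⟨s, z, w, π, fun i => (g (X i)).2, hbase, hwx, fun a ha => hwint _ (hAint ⟨a, ha⟩), hπ,
    fun f => ?_, hunif, G, fun c hc => ?_, fun y hy => ?_⟩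
  · rw [hz]
    exact hwπ f
  · rw [Finset.mem_union, Finset.mem_image, Finset.mem_image] at hc
    rcases hc with ⟨i, -, rfl⟩ | ⟨c, -, rfl⟩
    · exact hwint _ (hAint (g (X i)))
    · exact hwint _ c.2
  · obtain ⟨a, b, ha, hb, hwb, hab⟩ := hloc y hy
    exact ⟨a, b, hCG ⟨a, ha⟩, hCG ⟨b, hb⟩, ha.tower_top, hb.tower_top, hwb, hab⟩

end Pool.Agent.Helper11.D4
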