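import Pool.Agent.Helper11.D4.Ufd
import Pool.Agent.Helper11.D4.EX1

/-!
# D4: preparations for S_EX2
-/

set_option autoImplicit false

namespace Pool.Agent.Helper11.D4

open Pool.Agent.Helper37.SD Pool.Agent.Helper20.TS Pool.Agent.Helper88.D4

/-- the fraction field of a finite extension is finite -/
theorem finDim (P A K F : Type) [CommRing P] [IsDomain P] [CommRing A] [IsDomain A] [Algebra P A]
    [Module.Finite P A] [Field K] [Algebra A K] [Algebra P K] [IsScalarTower P A K]
    [IsFractionRing A K] [Field F] [Algebra P F] [IsFractionRing P F] [Algebra F K]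
    [IsScalarTower P F K] : FiniteDimensional F K := by
  classical
  have hinjPF : Function.Injective (algebraMap P F) := IsFractionRing.injective P F
  have hinjPK : Function.Injective (algebraMap P K) := by
    rw [IsScalarTower.algebraMap_eq P F K]
    exact (algebraMap F K).injective.comp hinjPF
  have hintA : Algebra.IsIntegral P A := Algebra.IsIntegral.of_finite P A
  have hMF : Module.Finite P A := inferInstance
  obtain ⟨S, hS⟩ := hMF.fg_top
  refine ⟨⟨S.image (algebraMap A K), ?_⟩⟩
  rw [eq_top_iff]
  intro z _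
  have hA : ∀ a : A, algebraMap A K a ∈ Submodule.span F
      ((S.image (algebraMap A K) : Finset K) : Set K) := by
    intro a
    have ha : a ∈ Submodule.span P (S : Set A) := by
      rw [hS]
      trivial
    induction ha using Submodule.span_induction with
    | mem x hx =>
      refine Submodule.subset_span ?_
      rw [Finset.coe_image]
      exact ⟨x, hx, rfl⟩
    | zero =>
      rw [map_zero]
      exact Submodule.zero_mem _
    | add x y _ _ hx hy =>
      rw [map_add]
      exact Submodule.add_mem _ hx hy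
    | smul p x _ hx =>
      have h1 : algebraMap A K (p • x) = (algebraMap P F p) • algebraMap A K x := by
        rw [Algebra.smul_def, map_mul, ← IsScalarTower.algebraMap_apply P A K, Algebra.smul_def,
          ← IsScalarTower.algebraMap_apply P F K]
      rw [h1]
      exact Submodule.smul_mem _ _ hx
  obtain ⟨⟨a, b⟩, hab⟩ := IsLocalization.surj (nonZeroDivisors A) z
  obtain ⟨p, hp0, t, ht⟩ := IsAlgebraic.exists_nonzero_dvd (R := P)
    (hintA.isIntegral (b : A)).isAlgebraic b.2
  have hpK : algebraMap P K p ≠ 0 := by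
    rw [Ne, map_eq_zero_iff _ hinjPK]
    exact hp0
  have h2 : z = (algebraMap P F p)⁻¹ • algebraMap A K (a * t) := by
    rw [Algebra.smul_def, map_inv₀, ← IsScalarTower.algebraMap_apply P F K,
      eq_inv_mul_iff_mul_eq₀ hpK,
      map_mul, ← hab, IsScalarTower.algebraMap_apply P A K, ht, map_mul]
    ring
  rw [h2]
  exact Submodule.smul_mem _ _ (hA _)

/-- integrality over a smaller set of scalars -/
theorem isIntegral_mono {A B K : Type} [CommRing A] [CommRing B] [Field K] [Algebra A K]
    [Algebra B K] (φ : A →+* B) (hφ : ∀ a, algebraMap B K (φ a) = algebraMap A K a) {x : K}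
    (hx : IsIntegral A x) : IsIntegral B x :=
  IsIntegral.map_of_comp_eq φ (RingHom.id K) (RingHom.ext hφ) hx

variable {K : Type} [Field K] [Algebra ℂ K]

theorem transcendental_of_not_cst {h : K} (hh : ¬ Cst h) : Transcendental ℂ h := by
  intro halg
  have hint : IsIntegral ℂ h := isAlgebraic_iff_isIntegral.1 halg
  have h1 : (minpoly ℂ h).degree = 1 :=
    IsAlgClosed.degree_eq_one_of_irreducible ℂ (minpoly.irreducible hint)
  obtain ⟨t, ht⟩ := minpoly.mem_range_of_degree_eq_one ℂ h h1
  exact hh ⟨t, ht.symm⟩

/-- `R ⊔ ℂ(h)` inside the algebra generated over `ℂ(h)` -/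
theorem mem_Ah_iff (R : Subalgebra ℂ K) (h : K) (x : K) :
    x ∈ Ah R h ↔ x ∈ Algebra.adjoin (IntermediateField.adjoin ℂ {h}) (R : Set K) := by
  constructor
  · intro hx
    unfold Ah at hx
    rw [Algebra.sup_def] at hx
    induction hx using Algebra.adjoin_induction with
    | mem y hy =>
      rcases hy with hy | hy
      · exact Algebra.subset_adjoin hy
      · exact Subalgebra.algebraMap_mem _ (⟨y, hy⟩ : IntermediateField.adjoin ℂ {h})
    | algebraMap z =>
      exact Subalgebra.algebraMap_mem _ (algebraMap ℂ (IntermediateField.adjoin ℂ {h}) z)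
    | add a b _ _ ha hb => exact add_mem ha hb
    | mul a b _ _ ha hb => exact mul_mem ha hb
  · intro hx
    induction hx using Algebra.adjoin_induction with
    | mem y hy => exact (le_sup_left : R ≤ Ah R h) hy
    | algebraMap e =>
      exact (le_sup_right : (IntermediateField.adjoin ℂ {h}).toSubalgebra ≤ Ah R h) e.2
    | add a b _ _ ha hb => exact add_mem ha hb
    | mul a b _ _ ha hb => exact mul_mem ha hb

theorem basis_adjoin {h : K} (hh : ¬ Cst h) :
    IsTranscendenceBasis ℂ (fun _ : Unit => (⟨h, IntermediateField.mem_adjoin_simple_self ℂ h⟩ :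
      IntermediateField.adjoin ℂ {h})) := by
  set x : Unit → IntermediateField.adjoin ℂ {h} := fun _ =>
    ⟨h, IntermediateField.mem_adjoin_simple_self ℂ h⟩ with hxdef
  have htr : Transcendental ℂ (x ()) := by
    intro h1
    refine transcendental_of_not_cst hh ?_
    have h2 := IsAlgebraic.algebraMap (A := K) h1
    exact h2
  have hx : AlgebraicIndependent ℂ x := by
    rw [algebraicIndependent_unique_type_iff]
    exact htr
  rw [hx.isTranscendenceBasis_iff_isAlgebraic]
  refine ⟨fun e => ?_⟩
  obtain ⟨r, q, hrq⟩ := (IntermediateField.mem_adjoin_simple_iff ℂ (e : K)).1 e.2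
  have h2 : ∀ p : Polynomial ℂ, Polynomial.aeval (x ()) p ∈ Algebra.adjoin ℂ (Set.range x) := by
    intro p
    have h3 : x () ∈ Algebra.adjoin ℂ (Set.range x) := Algebra.subset_adjoin ⟨(), rfl⟩
    have h4 := (Polynomial.aeval (⟨x (), h3⟩ : Algebra.adjoin ℂ (Set.range x)) p).2
    have h5 : ((Polynomial.aeval (⟨x (), h3⟩ : Algebra.adjoin ℂ (Set.range x)) p :
        Algebra.adjoin ℂ (Set.range x)) : IntermediateField.adjoin ℂ {h}) =
        Polynomial.aeval (x ()) p :=
      (Polynomial.aeval_algebraMap_apply (IntermediateField.adjoin ℂ {h})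
        (⟨x (), h3⟩ : Algebra.adjoin ℂ (Set.range x)) p).symm
    rwa [h5] at h4
  have h3 : e = Polynomial.aeval (x ()) r * (Polynomial.aeval (x ()) q)⁻¹ := by
    apply Subtype.ext
    have h4 : ∀ p : Polynomial ℂ, ((Polynomial.aeval (x ()) p : IntermediateField.adjoin ℂ {h}) :
        K) = Polynomial.aeval h p := fun p => (Polynomial.aeval_algebraMap_apply K (x ()) p).symm
    rw [hrq, div_eq_mul_inv]
    show _ = ((Polynomial.aeval (x ()) r : IntermediateField.adjoin ℂ {h}) : K) *
      ((Polynomial.aeval (x ()) q : IntermediateField.adjoin ℂ {h}) : K)⁻¹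
    rw [h4, h4]
  rw [h3]
  exact (isAlgebraic_algebraMap (R := Algebra.adjoin ℂ (Set.range x)) ⟨_, h2 r⟩).mul
    (isAlgebraic_algebraMap (R := Algebra.adjoin ℂ (Set.range x)) ⟨_, h2 q⟩).inv

/-- the transcendence degree of `K` over `ℂ(h)` -/
theorem trdeg_over {h : K} (hh : ¬ Cst h) (hd : Algebra.trdeg ℂ K = 4) {s : ℕ} (z : Fin s → K)
    (hz : IsTranscendenceBasis (IntermediateField.adjoin ℂ {h}) z) : s = 3 := by
  have h4 := (basis_adjoin hh).sumElim_comp hz
  have h5 := h4.lift_cardinalMk_eq_trdeg
  rw [hd] at h5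
  simp at h5
  have h6 : ((s + 1 : ℕ) : Cardinal) = ((4 : ℕ) : Cardinal) := by
    push_cast
    exact h5
  have h7 : s + 1 = 4 := by exact_mod_cast h6
  omega

end Pool.Agent.Helper11.D4
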