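import Pool.Agent.Helper88.D4.Stmts2

/-!
# Project D4 (MP_e1889a_ag): the parts of S_W2n and S_B1n
-/

set_option autoImplicit false

namespace Pool.Agent.Helper11.D4

open Module Pool.Agent.Helper37.SD Pool.Agent.Helper20.TS Pool.Agent.Helper88.D4

/-- B1 for a torus of rank at least 3 -/
def S_B1a : Prop := ∀ (K : Type) [Field K] [Algebra ℂ K] (R : Subalgebra ℂ K)
  (ξ : Derivation ℂ K K) (J : Bra K) (v : RVal K) (a V : ℝ) (r : ℕ)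
  (H : Fin r → Derivation ℂ K K) (c : Fin r → ℝ), Cone4 R ξ J a → IsMinF R ξ J v a V →
    Tor R ξ H c → 3 ≤ r → ∀ (χ : Fin r → ℤ) (α : Helper88.D4.One K), Al R ξ H χ α → (∀ i, α (H i) = 0) →
      ∃ h, (∀ i, H i h = 0) ∧ ¬ Cst h ∧ ∃ b, ∀ D, α D = b * D h

/-- B1 for a torus of rank 2 -/
def S_B1b : Prop := ∀ (K : Type) [Field K] [Algebra ℂ K] (R : Subalgebra ℂ K)
  (ξ : Derivation ℂ K K) (J : Bra K) (v : RVal K) (a V : ℝ)
  (H : Fin 2 → Derivation ℂ K K) (c : Fin 2 → ℝ), Cone4 R ξ J a → IsMinF R ξ J v a V →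
    Tor R ξ H c → ∀ (χ : Fin 2 → ℤ) (α : Helper88.D4.One K), Al R ξ H χ α → ∑ i, c i * χ i ≠ 0 →
      (∀ i, α (H i) = 0) → 2 * ∑ i, c i * χ i < a →
        ∃ h, (∀ i, H i h = 0) ∧ ¬ Cst h ∧ ∃ b, ∀ D, α D = b * D h

/-- the weight of the Wronskian -/
def S_WW : Prop := ∀ (K : Type) [Field K] [Algebra ℂ K] (r : ℕ)
  (H : Fin r → Derivation ℂ K K) (Z : Derivation ℂ K K) (κ : Fin r → ℤ),
    (∀ m φ, IsW H m φ → IsW H (m + κ) (Z φ)) →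
      ∀ (n : ℕ) (f : Fin n → K) (m : Fin r → ℤ), (∀ j, IsW H m (f j)) →
        IsW H ((n : ℤ) • m + ((∑ i : Fin n, (i : ℕ) : ℕ) : ℤ) • κ) (wr Z f)

/-- the Wronskian and valuations -/
def S_WV : Prop := ∀ (K : Type) [Field K] [Algebra ℂ K] (u : RVal K) (Z : Derivation ℂ K K),
  (∀ x, u.Ge 0 x → u.Ge 0 (Z x)) → ∀ (n : ℕ) (f : Fin n → K), (∀ j, u.Ge 0 (f j)) →
    u.Ge 0 (wr Z f)

/-- a minimizer for the lower limits is a minimizer -/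
theorem isMin_of_isMinF {K : Type} [Field K] [Algebra ℂ K] {R : Subalgebra ℂ K}
    {ξ : Derivation ℂ K K} {J : Bra K} {v : RVal K} {a V : ℝ} (h : IsMinF R ξ J v a V) :
    IsMin R ξ J v a V :=
  ⟨h.wt, h.vol, h.apos, h.vpos, fun w a' V' h1 h2 h3 =>
    h.min w a' V' h1 h2 fun ε hε => (h3 ε hε).frequently⟩

end Pool.Agent.Helper11.D4
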