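import Pool.Agent.Helper37.SD.Defs

/-!
# Finiteness of the integral closure
-/

set_option autoImplicit false

namespace Pool.Agent.Helper11.D4

open Pool.Agent.Helper37.SD

/-- **EX2.** the integral closure of a finitely generated domain over a field of characteristic
zero in its fraction field is Noetherian -/
theorem noeth_integralClosure (L A K : Type) [Field L] [CharZero L] [CommRing A] [IsDomain A]
    [Algebra L A] [Algebra.FiniteType L A] [Field K] [Algebra A K] [IsFractionRing A K] :
    IsNoetherianRing (integralClosure A K) := by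
  classical
  obtain ⟨s, g, hg, hfin⟩ := exists_finite_inj_algHom_of_fg L A
  let P := MvPolynomial (Fin s) L
  let iPA : Algebra P A := g.toRingHom.toAlgebra
  have hfinM : Module.Finite P A := hfin
  let iPK : Algebra P K := ((algebraMap A K).comp (algebraMap P A)).toAlgebra
  have tPAK : IsScalarTower P A K := IsScalarTower.of_algebraMap_eq fun _ => rfl
  have hinjPA : Function.Injective (algebraMap P A) := hg
  have hinjPK : Function.Injective (algebraMap P K) :=
    (IsFractionRing.injective A K).comp hinjPA
  have iTF : FaithfulSMul P K := (faithfulSMul_iff_algebraMap_injective P K).2 hinjPK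
  let F := FractionRing P
  let iFK : Algebra F K := FractionRing.liftAlgebra P K
  have tPFK : IsScalarTower P F K := FractionRing.isScalarTower_liftAlgebra P K
  have hintA : Algebra.IsIntegral P A := Algebra.IsIntegral.of_finite P A
  have iFin : FiniteDimensional F K := by
    obtain ⟨S, hS⟩ := hfinM.fg_top
    refine ⟨⟨S.image (algebraMap A K), ?_⟩⟩
    rw [eq_top_iff]
    intro z _
    have hA : ∀ a : A, algebraMap A K a ∈ Submodule.span F
        ((S.image (algebraMap A K) : Finset K) : Set K) := by
      intro a
      have ha : a ∈ Submodule.span P (S : Set A) := by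
        rw [hS]
        trivial
      induction ha using Submodule.span_induction with
      | mem x hx =>
        refine Submodule.subset_span ?_
        rw [Finset.coe_image]
        exact ⟨x, hx, rfl⟩
      | zero =>
        rw [map_zero]
        exact Submodule.zero_mem _
      | add x y _ _ hx hy =>
        rw [map_add]
        exact Submodule.add_mem _ hx hy
      | smul p x _ hx =>
        have h1 : algebraMap A K (p • x) = (algebraMap P F p) • algebraMap A K x := by
          rw [Algebra.smul_def, map_mul, ← IsScalarTower.algebraMap_apply P A K, Algebra.smul_def,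
            ← IsScalarTower.algebraMap_apply P F K]
        rw [h1]
        exact Submodule.smul_mem _ _ hx
    obtain ⟨⟨a, b⟩, hab⟩ := IsLocalization.surj (nonZeroDivisors A) z
    obtain ⟨p, hp0, t, ht⟩ := IsAlgebraic.exists_nonzero_dvd (R := P)
      (hintA.isIntegral (b : A)).isAlgebraic b.2
    have hpK : algebraMap P K p ≠ 0 := by
      rw [Ne, map_eq_zero_iff _ hinjPK]
      exact hp0
    have h2 : z = (algebraMap P F p)⁻¹ • algebraMap A K (a * t) := by
      rw [Algebra.smul_def, map_inv₀, ← IsScalarTower.algebraMap_apply P F K, eq_inv_mul_iff_mul_eq₀ hpK,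
        map_mul, ← hab, IsScalarTower.algebraMap_apply P A K, ht, map_mul]
      ring
    rw [h2]
    exact Submodule.smul_mem _ _ (hA _)
  have iC : IsIntegralClosure (integralClosure A K) P K := by
    refine ⟨Subtype.val_injective, ?_⟩
    intro x
    constructor
    · intro hx
      exact ⟨⟨x, hx.tower_top⟩, rfl⟩
    · rintro ⟨y, rfl⟩
      exact isIntegral_trans (R := P) (A := A) _ y.2
  exact IsIntegralClosure.isNoetherianRing P F K (integralClosure A K)

variable {K : Type} [Field K] [Algebra ℂ K]

omit [Algebra ℂ K] in
theorem noeth_aux {E : Type} [Field E] [CharZero E] [Algebra E K] (A : Subalgebra E K)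
    (hfg : A.FG) (iFr : IsFractionRing A K) : IsNoetherianRing (integralClosure A K) := by
  have iFT : Algebra.FiniteType E A := (Subalgebra.fg_iff_finiteType A).1 hfg
  exact noeth_integralClosure E A K

/-- **EX2'.** the integral closure of `R.E`, `E` a field between `ℂ` and `K` -/
theorem exists_hull (R : Subalgebra ℂ K) (hR : R.FG) (hf : IsFrac R) (E : IntermediateField ℂ K) :
    ∃ B : Subalgebra ℂ K, (∀ x, x ∈ B ↔ IsIntegral (Algebra.adjoin E (R : Set K)) x) ∧
      IsNoetherianRing B ∧ IsFrac B ∧ (∀ x, IsIntegral B x → x ∈ B) ∧ R ≤ B ∧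
      ∀ e ∈ E, e ∈ B := by
  let A : Subalgebra E K := Algebra.adjoin E (R : Set K)
  have hRA : ∀ x ∈ R, x ∈ A := fun x hx => Algebra.subset_adjoin hx
  have hEA : ∀ x ∈ E, x ∈ A := fun x hx => A.algebraMap_mem ⟨x, hx⟩
  have hfg : A.FG := by
    obtain ⟨S, hS⟩ := hR
    refine ⟨S, le_antisymm ?_ ?_⟩
    · refine Algebra.adjoin_mono fun x hx => ?_
      show x ∈ (R : Set K)
      rw [← hS]
      exact Algebra.subset_adjoin hx
    · refine Algebra.adjoin_le fun x hx => ?_
      have h1 : x ∈ Algebra.adjoin ℂ (S : Set K) := by
        rw [hS]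
        exact hx
      have h2 : ∀ y ∈ Algebra.adjoin ℂ (S : Set K), y ∈ Algebra.adjoin E (S : Set K) := by
        intro y hy
        induction hy using Algebra.adjoin_induction with
        | mem y hy => exact Algebra.subset_adjoin hy
        | algebraMap z =>
          rw [IsScalarTower.algebraMap_apply ℂ E K]
          exact Subalgebra.algebraMap_mem _ _
        | add a b _ _ ha hb => exact add_mem ha hb
        | mul a b _ _ ha hb => exact mul_mem ha hb
      exact h2 x h1
  have iFr : IsFractionRing A K := by
    refine IsFractionRing.of_field A K fun z => ?_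
    obtain ⟨a, ha, b, hb, hb0, rfl⟩ := hf z
    exact ⟨⟨a, hRA a ha⟩, ⟨b, hRA b hb⟩, rfl⟩
  have hch : CharZero E := charZero_of_injective_algebraMap (algebraMap ℂ E).injective
  have hN : IsNoetherianRing (integralClosure A K) := noeth_aux A hfg iFr
  let B : Subalgebra ℂ K :=
    { carrier := {x | IsIntegral A x}
      mul_mem' := fun ha hb => IsIntegral.mul ha hb
      add_mem' := fun ha hb => IsIntegral.add ha hb
      algebraMap_mem' := fun z => isIntegral_algebraMap (R := A) (A := K)
        (x := ⟨algebraMap ℂ K z, hEA _ (E.algebraMap_mem z)⟩) }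
  have hRB : R ≤ B := fun x hx => isIntegral_algebraMap (R := A) (A := K) (x := ⟨x, hRA x hx⟩)
  refine ⟨B, fun x => Iff.rfl, hN, fun z => ?_, fun x hx => ?_, hRB, fun e he =>
    isIntegral_algebraMap (R := A) (A := K) (x := ⟨e, hEA e he⟩)⟩
  · obtain ⟨a, ha, b, hb, hb0, rfl⟩ := hf z
    exact ⟨a, hRB ha, b, hRB hb, hb0, rfl⟩
  · have h1 : IsIntegral (integralClosure A K) x := hx
    exact isIntegral_trans (R := A) (A := integralClosure A K) x h1

end Pool.Agent.Helper11.D4
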