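import Pool.Agent.Helper88.D4.Stmts4
import Pool.Agent.Helper11.SY.Ma
import Pool.Agent.Helper20.D4.Gen

/-!
# Project D4 (MP_e1889a_ag): the order of the bracket is attained
-/

set_option autoImplicit false

namespace Pool.Agent.Helper88.D4

open Module Filter Topology IsLocalRing Pool.Agent.Helper37.SD Pool.Agent.Helper20.TS
  Pool.Agent.Helper11.SY Pool.Agent.Helper20.LT

theorem s_ORD_of (hG : S_GEN) : S_ORD := by
  intro R _ _ _ _ _ _ hres S w A hd hm K _ _ R₀ ξ sym hgr hcone
  obtain ⟨G, hG0, hGen⟩ := hG R hres w K R₀ ξ sym hgr hcone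
  -- not all brackets are zero
  have hne : ∃ f g : R, S.br f g ≠ 0 := by
    by_contra hcon
    push Not at hcon
    obtain ⟨f0, hf0, hf00⟩ := hm
    obtain ⟨g, i0, -, hg0, -⟩ := hd.eq f0 hf0 hf00
    apply hg0
    have h1 := S.sq g
    have h2 : (Matrix.of fun i j => S.br (g i) (g j)) = 0 := by
      ext i j
      rw [Matrix.of_apply, hcon, Matrix.zero_apply]
    have hN : Nonempty (Fin (2 * 2)) := ⟨⟨0, by norm_num⟩⟩
    rw [h2, Matrix.det_zero] at h1
    exact pow_eq_zero_iff (two_ne_zero) |>.1 h1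
  -- the pairs
  have hstep : ∀ s : ℝ, (∀ g ∈ G, ∀ h ∈ G, w.v g + w.v h ≤ w.v (S.br g h) + (s : WithTop ℝ)) →
      OrderGe S w s := by
    intro s hs
    have h1 : ∀ f h : R, f ≠ 0 → (w.v f + w.v h ≤ w.v (S.br f h) + (s : WithTop ℝ) ↔
        ∃ d : ℝ, w.v f = ((d + s : ℝ) : WithTop ℝ) ∧ w.v h + (d : WithTop ℝ) ≤ w.v (S.br f h)) := by
      intro f h hf
      obtain ⟨x, hx⟩ := real_val w hf
      constructor
      · intro h2
        refine ⟨x - s, by rw [hx, sub_add_cancel], ?_⟩
        rw [hx] at h2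
        by_cases h3 : w.v (S.br f h) = ⊤
        · rw [h3]
          exact le_top
        · obtain ⟨z, hz⟩ := WithTop.ne_top_iff_exists.1 h3
          rw [← hz, ← WithTop.coe_add] at h2
          have h4 : w.v h ≠ ⊤ := by
            intro h5
            rw [h5, add_top] at h2
            exact absurd (top_le_iff.1 h2) WithTop.coe_ne_top
          obtain ⟨y, hy⟩ := WithTop.ne_top_iff_exists.1 h4
          rw [← hy, ← WithTop.coe_add, WithTop.coe_le_coe] at h2
          rw [← hy, ← hz, ← WithTop.coe_add, WithTop.coe_le_coe]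
          linarith
      · rintro ⟨d, hd1, hd2⟩
        rw [hd1, WithTop.coe_add]
        have h3 := add_le_add hd2 (le_refl (s : WithTop ℝ))
        refine le_trans (le_of_eq ?_) h3
        rw [add_comm, ← add_assoc]
    -- first argument in `G`
    have h2 : ∀ g ∈ G, ∀ h, w.v g + w.v h ≤ w.v (S.br g h) + (s : WithTop ℝ) := by
      intro g hg h
      obtain ⟨x, hx⟩ := real_val w (hG0 g hg)
      refine (h1 g h (hG0 g hg)).2 ⟨x - s, by rw [hx, sub_add_cancel], ?_⟩
      refine hGen (S.br g) (x - s) (fun k hk => ?_) h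
      obtain ⟨d, hd1, hd2⟩ := (h1 g k (hG0 g hg)).1 (hs g hg k hk)
      have h3 : d = x - s := by
        rw [hx, WithTop.coe_eq_coe] at hd1
        linarith
      rw [← h3]
      exact hd2
    intro f h
    by_cases hh : h = 0
    · rw [hh, Derivation.map_zero, w.v.map_zero, top_add]
      exact le_top
    obtain ⟨y, hy⟩ := real_val w hh
    have h3 : w.v h + w.v f ≤ w.v (S.br h f) + (s : WithTop ℝ) := by
      refine (h1 h f hh).2 ⟨y - s, by rw [hy, sub_add_cancel], ?_⟩
      refine hGen (S.br h) (y - s) (fun k hk => ?_) f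
      have h4 := h2 k hk h
      rw [br_skew, AddValuation.map_neg, add_comm] at h4
      obtain ⟨d, hd1, hd2⟩ := (h1 h k hh).1 h4
      have h5 : d = y - s := by
        rw [hy, WithTop.coe_eq_coe] at hd1
        linarith
      rw [← h5]
      exact hd2
    rw [br_skew, AddValuation.map_neg, add_comm]
    exact h3
  classical
  set P : Finset (R × R) := (G ×ˢ G).filter fun p => S.br p.1 p.2 ≠ 0 with hP
  have hval : ∀ p : R × R, p ∈ P → ∃ t : ℝ, w.v p.1 + w.v p.2 = w.v (S.br p.1 p.2) +
      (t : WithTop ℝ) := by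
    intro p hp
    rw [hP, Finset.mem_filter, Finset.mem_product] at hp
    obtain ⟨x, hx⟩ := real_val w (hG0 _ hp.1.1)
    obtain ⟨y, hy⟩ := real_val w (hG0 _ hp.1.2)
    obtain ⟨z, hz⟩ := real_val w hp.2
    refine ⟨x + y - z, ?_⟩
    rw [hx, hy, hz, ← WithTop.coe_add, ← WithTop.coe_add, WithTop.coe_eq_coe]
    ring
  by_cases hPe : P.Nonempty
  · have hc : ∃ T : R × R → ℝ, ∀ p ∈ P, w.v p.1 + w.v p.2 = w.v (S.br p.1 p.2) +
        (T p : WithTop ℝ) := by
      choose! T hT using hval
      exact ⟨T, hT⟩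
    obtain ⟨T, hT⟩ := hc
    obtain ⟨p, hp, hmax⟩ := P.exists_max_image T hPe
    refine ⟨T p, hstep _ ?_, p.1, p.2, ?_, hT p hp⟩
    · intro g hg h hh
      by_cases h0 : S.br g h = 0
      · rw [h0, w.v.map_zero, top_add]
        exact le_top
      · have hgh : (g, h) ∈ P := by
          rw [hP, Finset.mem_filter, Finset.mem_product]
          exact ⟨⟨hg, hh⟩, h0⟩
        have h5 := hT _ hgh
        simp only at h5
        rw [h5]
        exact add_le_add le_rfl (WithTop.coe_le_coe.2 (hmax _ hgh))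
    · rw [hP, Finset.mem_filter] at hp
      exact hp.2
  · exfalso
    rw [Finset.not_nonempty_iff_eq_empty] at hPe
    have hz : ∀ g ∈ G, ∀ h ∈ G, S.br g h = 0 := by
      intro g hg h hh
      by_contra h0
      have hgh : (g, h) ∈ P := by
        rw [hP, Finset.mem_filter, Finset.mem_product]
        exact ⟨⟨hg, hh⟩, h0⟩
      rw [hPe] at hgh
      exact absurd hgh (Finset.notMem_empty _)
    obtain ⟨f, g, hfg⟩ := hne
    have hf : f ≠ 0 := by
      rintro rfl
      exact hfg (by rw [map_zero S.br, Derivation.zero_apply])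
    have hg : g ≠ 0 := by
      rintro rfl
      exact hfg (by rw [Derivation.map_zero])
    obtain ⟨x, hx⟩ := real_val w hf
    obtain ⟨y, hy⟩ := real_val w hg
    obtain ⟨z, hz'⟩ := real_val w hfg
    have h1 := hstep (x + y - z - 1) (fun g hg h hh => by
      rw [hz g hg h hh, w.v.map_zero, top_add]
      exact le_top) f g
    rw [hx, hy, hz', ← WithTop.coe_add, ← WithTop.coe_add, WithTop.coe_le_coe] at h1
    linarith

theorem s_ORD : S_ORD := s_ORD_of Pool.Agent.Helper20.D4.s_GEN

end Pool.Agent.Helper88.D4
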