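import Pool.Agent.Helper11.D4.Fd

/-!
# D4: residues of the coordinates at a divisorial valuation
-/

set_option autoImplicit false

namespace Pool.Agent.Helper11.D4

open MvPolynomial

section Deg

variable {E : Type} [Field E] [Algebra ℂ E]

/-- a nonconstant prime involves a variable -/
theorem exists_degreeOf_ne {n : ℕ} (π : MvPolynomial (Fin n) E) (hπ : Prime π) :
    ∃ i, π.degreeOf i ≠ 0 := by
  by_contra! h
  have h1 : π.totalDegree = 0 := by
    rw [totalDegree_eq_zero_iff]
    intro m hm x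
    have h2 := (degreeOf_le_iff (n := x) (d := 0)).1 (le_of_eq (h x)) m hm
    omega
  rw [totalDegree_eq_zero_iff_eq_C] at h1
  by_cases h0 : π.coeff 0 = 0
  · rw [h0, map_zero] at h1
    exact hπ.ne_zero h1
  · refine hπ.not_unit ?_
    rw [h1]
    exact (isUnit_iff_ne_zero.2 h0).map C

theorem degreeOf_aeval_eq_zero {n : ℕ} {τ : Type} (i : Fin n) (y : τ → MvPolynomial (Fin n) E)
    (hy : ∀ t, (y t).degreeOf i = 0) (P : MvPolynomial τ ℂ) : (aeval y P).degreeOf i = 0 := by
  induction P using MvPolynomial.induction_on with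
  | C c =>
    have h1 : aeval y (C c : MvPolynomial τ ℂ) = C (algebraMap ℂ E c) := by
      rw [aeval_C]
      rfl
    rw [h1, degreeOf_C]
  | add p q hp hq =>
    rw [map_add]
    have := degreeOf_add_le i (aeval y p) (aeval y q)
    rw [hp, hq] at this
    simpa using this
  | mul_X p t hp =>
    rw [map_mul, aeval_X]
    have := degreeOf_mul_le i (aeval y p) (y t)
    rw [hp, hy t] at this
    omega

/-- the coordinates whose residues are independent -/
theorem exists_coords (h : E) (hh : Transcendental ℂ h) (π : MvPolynomial (Fin 3) E)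
    (hπ : Prime π) : ∃ j k : Fin 3, ∀ P : MvPolynomial (Fin 3) ℂ, P ≠ 0 →
      aeval ![(C h : MvPolynomial (Fin 3) E), X j, X k] P ≠ 0 ∧
        ¬ π ∣ aeval ![(C h : MvPolynomial (Fin 3) E), X j, X k] P := by
  obtain ⟨i, hi⟩ := exists_degreeOf_ne π hπ
  have hne : ∀ i : Fin 3, i ≠ i + 1 ∧ i ≠ i + 2 ∧ i + 1 ≠ i + 2 := by decide
  obtain ⟨h1, h2, h3⟩ := hne i
  refine ⟨i + 1, i + 2, fun P hP => ?_⟩
  have hx : AlgebraicIndependent ℂ (fun _ : Unit => h) := by
    rw [algebraicIndependent_unique_type_iff]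
    exact hh
  have hyinj : Function.Injective (![i + 1, i + 2] : Fin 2 → Fin 3) := by
    intro a b hab
    fin_cases a <;> fin_cases b
    · rfl
    · exact absurd hab h3
    · exact absurd hab.symm h3
    · rfl
  have hy : AlgebraicIndependent E (fun a : Fin 2 => (X (![i + 1, i + 2] a) :
      MvPolynomial (Fin 3) E)) := (algebraicIndependent_X (Fin 3) E).comp _ hyinj
  have hs := hx.sumElim_comp hy
  have heinj : Function.Injective (![Sum.inr (), Sum.inl 0, Sum.inl 1] : Fin 3 → Fin 2 ⊕ Unit) := by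
    decide
  have hc := hs.comp _ heinj
  have hfun : (Sum.elim (fun a : Fin 2 => (X (![i + 1, i + 2] a) : MvPolynomial (Fin 3) E))
      (algebraMap E (MvPolynomial (Fin 3) E) ∘ fun _ : Unit => h)) ∘
        (![Sum.inr (), Sum.inl 0, Sum.inl 1] : Fin 3 → Fin 2 ⊕ Unit) =
      ![(C h : MvPolynomial (Fin 3) E), X (i + 1), X (i + 2)] := by
    funext a
    fin_cases a <;> rfl
  rw [hfun] at hc
  have hne0 : aeval ![(C h : MvPolynomial (Fin 3) E), X (i + 1), X (i + 2)] P ≠ 0 := by
    intro h4
    exact hP (hc.eq_zero_of_aeval_eq_zero P h4)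
  refine ⟨hne0, ?_⟩
  rintro ⟨q, hq⟩
  have hdeg := degreeOf_aeval_eq_zero i ![(C h : MvPolynomial (Fin 3) E), X (i + 1), X (i + 2)]
    (by
      intro t
      fin_cases t
      · exact degreeOf_C _ _
      · exact degreeOf_X_of_ne h1
      · exact degreeOf_X_of_ne h2) P
  rw [hq] at hdeg hne0
  rw [degreeOf_mul_eq (left_ne_zero_of_mul hne0) (right_ne_zero_of_mul hne0)] at hdeg
  omega

end Deg

end Pool.Agent.Helper11.D4
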