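import Mathlib

/-!
# Divisorial valuations of a finite extension of a unique factorisation domain
-/

set_option autoImplicit false

namespace Pool.Agent.Helper11.D4

open Polynomial

section Loc

variable {B K : Type} [CommRing B] [IsDomain B] [Field K] [Algebra B K]
  [IsFractionRing B K]

theorem primeCompl_le (P : Ideal B) [hP : P.IsPrime] : P.primeCompl ≤ nonZeroDivisors B := by
  intro s hs
  refine mem_nonZeroDivisors_of_ne_zero ?_
  rintro rfl
  exact hs P.zero_mem

/-- an element of the fraction field of a unique factorisation domain which is integral at all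
prime elements -/
theorem mem_of_forall_prime [UniqueFactorizationMonoid B] (c : K)
    (h : ∀ π : B, Prime π → ∃ a s : B, ¬ π ∣ s ∧ c * algebraMap B K s = algebraMap B K a) :
    ∃ b : B, algebraMap B K b = c := by
  obtain ⟨n, d, hrel, hc⟩ := IsFractionRing.exists_reduced_fraction (A := B) c
  have hd0 : (d : B) ≠ 0 := nonZeroDivisors.coe_ne_zero _
  have h2 : algebraMap B K (d : B) ≠ 0 := by
    rw [Ne, map_eq_zero_iff _ (IsFractionRing.injective B K)]
    exact hd0
  have h1 : c * algebraMap B K d = algebraMap B K n := by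
    rw [← hc, IsLocalization.mk'_spec]
  by_cases hu : IsUnit (d : B)
  · obtain ⟨t, ht⟩ := hu
    refine ⟨n * (t⁻¹ : Bˣ), ?_⟩
    have h3 : algebraMap B K (n * (t⁻¹ : Bˣ)) * algebraMap B K d = c * algebraMap B K d := by
      rw [h1, ← map_mul, mul_assoc, ← ht, Units.inv_mul, mul_one]
    exact mul_right_cancel₀ h2 h3
  · exfalso
    obtain ⟨π, hirr, hdvd⟩ := WfDvdMonoid.exists_irreducible_factor hu hd0
    have hπ : Prime π := UniqueFactorizationMonoid.irreducible_iff_prime.1 hirr
    obtain ⟨a, s, hs, has⟩ := h π hπ
    have h3 : n * s = (d : B) * a := by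
      apply IsFractionRing.injective B K
      rw [map_mul, map_mul, ← has, ← h1]
      ring
    have h4 : π ∣ n * s := by
      rw [h3]
      exact Dvd.dvd.mul_right hdvd _
    rcases hπ.dvd_or_dvd h4 with h5 | h5
    · exact hirr.1 (hrel h5 hdvd)
    · exact hs h5

end Loc

section Ded

theorem exists_val_local (O F K : Type) [CommRing O] [IsDedekindDomain O] [IsLocalRing O]
    [Field F] [Algebra O F] [IsFractionRing O F] [Field K] [Algebra O K] [Algebra F K]
    [IsScalarTower O F K] [FiniteDimensional F K] [Algebra.IsSeparable F K]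
    (x : K) (hx : ¬ IsIntegral O x) :
    ∃ w : Valuation K (WithZero (Multiplicative ℤ)), 1 < w x ∧ (∀ b, IsIntegral O b → w b ≤ 1) ∧
      (∀ f : O, w (algebraMap O K f) < 1 ↔ f ∈ IsLocalRing.maximalIdeal O) ∧
      (∃ p, w p = WithZero.exp (-1 : ℤ)) ∧
      ∀ y, w y ≤ 1 → ∃ a s : K, IsIntegral O a ∧ IsIntegral O s ∧ w s = 1 ∧ y * s = a := by
  have iD : IsDedekindDomain (integralClosure O K) := integralClosure.isDedekindDomain O F K
  have iF : IsFractionRing (integralClosure O K) K :=
    integralClosure.isFractionRing_of_finite_extension F K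
  have h1 : ∃ V : IsDedekindDomain.HeightOneSpectrum (integralClosure O K),
      ¬ V.valuation K x ≤ 1 := by
    by_contra! h
    obtain ⟨c, hc⟩ := IsDedekindDomain.HeightOneSpectrum.mem_integers_of_valuation_le_one
      (R := integralClosure O K) K x h
    refine hx ?_
    rw [← hc]
    exact c.2
  obtain ⟨V, hV⟩ := h1
  refine ⟨V.valuation K, not_le.1 hV, fun b hb => V.valuation_le_one ⟨b, hb⟩, fun f => ?_,
    V.valuation_exists_uniformizer K, fun y hy => ?_⟩
  · have h2 : algebraMap O K f = algebraMap (integralClosure O K) K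
        (algebraMap O (integralClosure O K) f) := rfl
    rw [h2, V.valuation_lt_one_iff_mem]
    have h3 : V.asIdeal.IsMaximal := V.isMaximal
    have h4 : (V.asIdeal.comap (algebraMap O (integralClosure O K))).IsMaximal :=
      Ideal.isMaximal_comap_of_isIntegral_of_isMaximal V.asIdeal
    rw [← IsLocalRing.eq_maximalIdeal h4]
    rfl
  · obtain ⟨n, d, hnd⟩ := V.exists_primeCompl_mul_eq_of_integer y hy
    refine ⟨n, (d : integralClosure O K), n.2, (d : integralClosure O K).2, ?_, hnd⟩
    exact (V.valuation_eq_one_iff_notMem (K := K)).2 d.2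

end Ded

section Val

variable {P F K : Type} [CommRing P] [IsDomain P] [UniqueFactorizationMonoid P]
  [IsNoetherianRing P] [Field F] [Algebra P F] [IsFractionRing P F] [Field K] [Algebra P K]
  [Algebra F K] [IsScalarTower P F K] [FiniteDimensional F K] [Algebra.IsSeparable F K]

/-- the coefficients of the minimal polynomial of an element which is integral at all prime
elements -/
theorem exists_prime_not_integral (x : K) (hx : ¬ IsIntegral P x) :
    ∃ π : P, Prime π ∧ ∃ hπ : (Ideal.span {π}).IsPrime,
      ¬ IsIntegral (Localization.subalgebra.ofField F (Ideal.span {π}).primeCompl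
        (primeCompl_le _)) x := by
  by_contra! h
  refine hx ?_
  have hxF : IsIntegral F x := Algebra.IsIntegral.isIntegral x
  have h1 : ∀ i, ∃ b : P, algebraMap P F b = (minpoly F x).coeff i := by
    intro i
    refine mem_of_forall_prime _ fun π hπ => ?_
    have hpr : (Ideal.span {π}).IsPrime := (Ideal.span_singleton_prime hπ.ne_zero).2 hπ
    have h2 := h π hπ hpr
    have h3 : IsIntegrallyClosed (Localization.subalgebra.ofField F (Ideal.span {π}).primeCompl
        (primeCompl_le _)) :=
      isIntegrallyClosed_of_isLocalization _ (Ideal.span {π}).primeCompl (primeCompl_le _)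
    have h4 := minpoly.isIntegrallyClosed_eq_field_fractions' F h2
    rw [h4, coeff_map]
    obtain ⟨a, s, hs, has⟩ := ((minpoly (Localization.subalgebra.ofField F
      (Ideal.span {π}).primeCompl (primeCompl_le _)) x).coeff i).2
    refine ⟨a, s, fun h5 => hs (Ideal.mem_span_singleton.2 h5), ?_⟩
    have h6 : algebraMap P F s ≠ 0 := by
      rw [Ne, map_eq_zero_iff _ (IsFractionRing.injective P F)]
      rintro rfl
      exact hs (Ideal.zero_mem _)
    show ((minpoly (Localization.subalgebra.ofField F
      (Ideal.span {π}).primeCompl (primeCompl_le _)) x).coeff i : F) * algebraMap P F s = _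
    rw [has, mul_assoc, inv_mul_cancel₀ h6, mul_one]
  have h2 : minpoly F x ∈ Polynomial.lifts (algebraMap P F) := by
    rw [Polynomial.lifts_iff_coeff_lifts]
    intro i
    obtain ⟨b, hb⟩ := h1 i
    exact ⟨b, hb⟩
  obtain ⟨q, hq, hdeg, hmon⟩ := Polynomial.lifts_and_natDegree_eq_and_monic h2 (minpoly.monic hxF)
  refine ⟨q, hmon, ?_⟩
  have h3 : Polynomial.aeval x (minpoly F x) = 0 := minpoly.aeval F x
  rw [← hq, Polynomial.aeval_map_algebraMap] at h3
  exact h3

omit [UniqueFactorizationMonoid P] in
/-- the local ring of a prime element -/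
theorem local_of_prime (F : Type) [Field F] [Algebra P F] [IsFractionRing P F] (π : P)
    (hπ : Prime π) [hpr : (Ideal.span {π}).IsPrime] :
    ∃ (_ : IsLocalRing (Localization.subalgebra.ofField F (Ideal.span {π}).primeCompl
        (primeCompl_le _)))
      (_ : IsDedekindDomain (Localization.subalgebra.ofField F (Ideal.span {π}).primeCompl
        (primeCompl_le _))),
      ∀ f : P, algebraMap P (Localization.subalgebra.ofField F (Ideal.span {π}).primeCompl
        (primeCompl_le _)) f ∈ IsLocalRing.maximalIdeal (Localization.subalgebra.ofField F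
          (Ideal.span {π}).primeCompl (primeCompl_le _)) ↔ π ∣ f := by
  let O := Localization.subalgebra.ofField F (Ideal.span {π}).primeCompl (primeCompl_le _)
  have iO : IsLocalization (Ideal.span {π}).primeCompl O := inferInstance
  have iAt : IsLocalization.AtPrime O (Ideal.span {π}) := iO
  have iL : IsLocalRing O := IsLocalization.AtPrime.isLocalRing O (Ideal.span {π})
  have iN : IsNoetherianRing O :=
    IsLocalization.isNoetherianRing (Ideal.span {π}).primeCompl O inferInstance
  have hmap : Ideal.map (algebraMap P O) (Ideal.span {π}) = IsLocalRing.maximalIdeal O :=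
    IsLocalization.AtPrime.map_eq_maximalIdeal (Ideal.span {π}) O
  have hm : IsLocalRing.maximalIdeal O = Ideal.span {algebraMap P O π} := by
    rw [← hmap, Ideal.map_span, Set.image_singleton]
  have iD : IsDedekindDomain O :=
    ((tfae_of_isNoetherianRing_of_isLocalRing_of_isDomain O).out 2 4).2
      (Submodule.IsPrincipal.mk ⟨_, hm⟩)
  refine ⟨iL, iD, fun f => ?_⟩
  rw [← Ideal.mem_span_singleton]
  exact IsLocalization.AtPrime.to_map_mem_maximal_iff O (Ideal.span {π}) f iL

/-- **divisorial valuations of a finite extension of a factorial ring** -/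
theorem exists_val (F : Type) [Field F] [Algebra P F] [IsFractionRing P F] [Algebra F K]
    [IsScalarTower P F K] [FiniteDimensional F K] [Algebra.IsSeparable F K]
    (x : K) (hx : ¬ IsIntegral P x) :
    ∃ (π : P) (w : Valuation K (WithZero (Multiplicative ℤ))), Prime π ∧ 1 < w x ∧
      (∀ b, IsIntegral P b → w b ≤ 1) ∧ (∀ f : P, w (algebraMap P K f) < 1 ↔ π ∣ f) ∧
      (∃ p, w p = WithZero.exp (-1 : ℤ)) ∧
      ∀ y, w y ≤ 1 → ∃ a s : K, IsIntegral P a ∧ IsIntegral P s ∧ w s = 1 ∧ y * s = a := by
  obtain ⟨π, hπ, hpr, hnot⟩ := exists_prime_not_integral (F := F) x hx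
  obtain ⟨iL, iD, hmax⟩ := local_of_prime F π hπ
  let O := Localization.subalgebra.ofField F (Ideal.span {π}).primeCompl (primeCompl_le _)
  have iO : IsLocalization (Ideal.span {π}).primeCompl O := inferInstance
  have iF : IsFractionRing O F := inferInstance
  have t1 : IsScalarTower O F K := inferInstance
  have t2 : IsScalarTower P O K := inferInstance
  obtain ⟨w, h1, h2, h3, h4, h5⟩ := exists_val_local O F K x hnot
  have hw : ∀ f : P, w (algebraMap P K f) < 1 ↔ π ∣ f := by
    intro f
    rw [← hmax f, ← h3, ← IsScalarTower.algebraMap_apply P O K]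
  have hle : ∀ b, IsIntegral P b → w b ≤ 1 := fun b hb => h2 b hb.tower_top
  have hm1 : ∀ m : (Ideal.span {π}).primeCompl, w (algebraMap P K m) = 1 := by
    intro m
    refine le_antisymm (hle _ isIntegral_algebraMap) ?_
    by_contra h6
    exact m.2 (Ideal.mem_span_singleton.2 ((hw m).1 (not_le.1 h6)))
  refine ⟨π, w, hπ, h1, hle, hw, h4, fun y hy => ?_⟩
  obtain ⟨a, s, ha, hs, hws, has⟩ := h5 y hy
  obtain ⟨m, hm⟩ := IsIntegral.exists_multiple_integral_of_isLocalization
    (Ideal.span {π}).primeCompl a ha
  obtain ⟨m', hm'⟩ := IsIntegral.exists_multiple_integral_of_isLocalization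
    (Ideal.span {π}).primeCompl s hs
  rw [Submonoid.smul_def, Algebra.smul_def] at hm hm'
  refine ⟨algebraMap P K m' * (algebraMap P K m * a), algebraMap P K m * (algebraMap P K m' * s),
    (isIntegral_algebraMap).mul hm, (isIntegral_algebraMap).mul hm', ?_, ?_⟩
  · rw [map_mul, map_mul, hm1, hm1, hws, one_mul, one_mul]
  · rw [← has]
    ring

end Val

end Pool.Agent.Helper11.D4
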