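import Pool.Agent.Helper11.D4.FrB
import Pool.Agent.Helper51.D4.Quo
import Pool.Agent.Helper80.D4.Pt
import Pool.Agent.Helper48.D4.Cnt
import Pool.Agent.Helper48.D4.B0

/-!
# Project D4 (MP_e1889a_ag): the Wronskian at a prime divisor
-/

set_option autoImplicit false

namespace Pool.Agent.Helper11.D4

open Module Pool.Agent.Helper37.SD Pool.Agent.Helper20.TS Pool.Agent.Helper88.D4

variable {K : Type} [Field K] [Algebra ℂ K]

theorem isW_smul {r : ℕ} {H : Fin r → Derivation ℂ K K} {m : Fin r → ℤ} {φ : K} (h : IsW H m φ)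
    (t : ℂ) : IsW H m (t • φ) := fun i => by
  rw [Derivation.map_smul, h i, smul_comm]

variable {R : Subalgebra ℂ K} {ξ : Derivation ℂ K K} {J : Bra K} {a : ℝ}
  {H : Fin 2 → Derivation ℂ K K} {c : Fin 2 → ℝ} {χ w₀ : Fin 2 → ℤ} {α : Helper88.D4.One K}

/-- the derivation given by two homogeneous functions has a weight -/
theorem isW_Z (hJ : IsAlt J) (hJw : ∀ i, HomBra (H i) (w₀ i : ℂ) J) (hα : Al R ξ H χ α) {x y : K}
    {mx my : Fin 2 → ℤ} (hx0 : x ≠ 0) (hy0 : y ≠ 0) (hx : IsW H mx x) (hy : IsW H my y) {t : ℂ}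
    {Z : Derivation ℂ K K} (hZ : ∀ φ, Z φ = t • (α (J φ x y) / (x * y))) (m : Fin 2 → ℤ) (φ : K)
    (hφ : IsW H m φ) : IsW H (m + (χ - w₀)) (Z φ) := by
  have h1 := Helper80.D4.isW_al hJ hJw hα hφ hx hy
  have h2 := Helper51.D4.isW_div h1 (Helper51.D4.isW_mul hx hy) (mul_ne_zero hx0 hy0)
  have e : χ + (m + mx + my - w₀) - (mx + my) = m + (χ - w₀) := by abel
  rw [e] at h2
  rw [hZ]
  exact isW_smul h2 t

theorem sum_lin (ρ : Fin 2 → ℝ) (m χ w₀ : Fin 2 → ℤ) (n s : ℤ) :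
    ∑ i, ρ i * ((n • m + s • (χ - w₀)) i : ℤ) =
      n * ∑ i, ρ i * m i + s * (∑ i, ρ i * χ i - ∑ i, ρ i * w₀ i) := by
  rw [Fin.sum_univ_two, Fin.sum_univ_two, Fin.sum_univ_two, Fin.sum_univ_two]
  simp only [Pi.add_apply, Pi.smul_apply, Pi.sub_apply, smul_eq_mul]
  push_cast
  ring

/-- The Wronskian is regular at a prime divisor, or the order is a function of the weight, with the
value 1 at the weight of the volume form and the value 0 at the weight of `α`. -/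
theorem wr_at (hPT : S_PT) (hSZ : S_Z) (hZu : S_Zu) (hREG : S_REG) (hWW : S_WW) (hWV : S_WV)
    (hWR : S_WR) (hC : Cone4 R ξ J a) (hT : Tor R ξ H c) (hα : Al R ξ H χ α)
    (hαH : ∀ i, α (H i) = 0) (hJw : ∀ i, HomBra (H i) (w₀ i : ℂ) J) {Z : Derivation ℂ K K}
    (hZ : IsZ J H α Z) (hZw : ∀ m φ, IsW H m φ → IsW H (m + (χ - w₀)) (Z φ)) {n : ℕ}
    {f : Fin n → K} {m : Fin 2 → ℤ} (hf : ∀ j, f j ∈ R) (hf0 : ∀ j, f j ≠ 0)
    (hfw : ∀ j, IsW H m (f j)) (hW0 : wr Z f ≠ 0) {u : RVal K} (hu : PDiv R u) :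
    0 ≤ u.val (wr Z f) ∨ ∃ ρ : Fin 2 → ℝ,
      (∀ m φ, φ ≠ 0 → IsW H m φ → u.val φ = ∑ i, ρ i * m i) ∧ ∑ i, ρ i * w₀ i = 1 ∧
        ∑ i, ρ i * χ i = 0 := by
  have hLI : LinearIndependent K H := Helper48.D4.s_B0 K R ξ 2 H c hC.frac hT
  rcases hPT K R ξ J a H c hC hT χ w₀ α hα hJw u hu with
    ⟨x, y, mx, my, hx0, hy0, hx, hy, hux, huy, hdet⟩ | ⟨ρ, h1, h2, h3, -⟩
  · left
    obtain ⟨t, Z', ht, hZ', hZ'e⟩ := hSZ K J H α hC.trdeg hC.alt hLI hαH x y mx my hx0 hy0 hx hy hdet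
    have hZ'w := isW_Z hC.alt hJw hα hx0 hy0 hx hy hZ'e
    obtain ⟨p, q, hpq⟩ := hZu K J H α hC.trdeg hC.alt hLI Z Z' hZ hZ'
    have hwr : wr Z' f = wr Z f := by
      refine hWR K 2 H Z Z' (χ - w₀) hZw hZ'w
        (fun m => (algebraMap ℂ K (m 0)) * p + (algebraMap ℂ K (m 1)) * q) (fun m φ hφ => ?_) n f m hfw
      rw [hpq]
      simp only [Derivation.add_apply, Derivation.smul_apply, smul_eq_mul, hφ 0, hφ 1,
        Algebra.smul_def]
      ring
    have hge : u.Ge 0 (wr Z' f) := by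
      refine hWV K u Z' (fun φ hφ => ?_) n f fun j => Or.inr (hu.nonneg _ (hf j) (hf0 j))
      have h4 := (hREG K R ξ J a hC α).1 hα.reg u hu φ x y hφ (Or.inr hux.ge) (Or.inr huy.ge)
      rw [hZ'e]
      refine u.ge_smul t ?_
      by_cases h5 : α (J φ x y) = 0
      · left
        rw [h5, zero_div]
      · right
        rw [Helper51.D4.val_div u h5 (mul_ne_zero hx0 hy0), u.map_mul x y hx0 hy0, hux, huy]
        rcases h4 with h4 | h4
        · exact absurd h4 h5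
        · linarith
    rw [hwr] at hge
    rcases hge with h | h
    · exact absurd h hW0
    · exact h
  · rcases h3 with h3 | h3
    · exact Or.inr ⟨ρ, h1, h2, h3⟩
    · left
      have h4 := hWW K 2 H Z (χ - w₀) hZw n f m hfw
      rw [h1 _ _ hW0 h4, sum_lin, h2]
      have h5 : 0 ≤ ((n : ℕ) : ℝ) * ∑ i, ρ i * m i := by
        rcases n.eq_zero_or_pos with h | h
        · rw [h]; simp
        · have h6 := h1 m _ (hf0 ⟨0, h⟩) (hfw ⟨0, h⟩)
          rw [← h6]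
          exact mul_nonneg (Nat.cast_nonneg _) (hu.nonneg _ (hf _) (hf0 _))
      have h7 : 0 ≤ (((∑ i : Fin n, (i : ℕ) : ℕ) : ℤ) : ℝ) * (∑ i, ρ i * χ i - 1) :=
        mul_nonneg (by positivity) (by linarith)
      have h8 : (((n : ℕ) : ℤ) : ℝ) = ((n : ℕ) : ℝ) := by push_cast; rfl
      rw [h8]
      linarith

end Pool.Agent.Helper11.D4
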