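import Pool.Agent.Helper11.D4.W2a

/-!
# Project D4 (MP_e1889a_ag): growth of the weight spaces, rank 2
-/

set_option autoImplicit false

namespace Pool.Agent.Helper11.D4

open Module Pool.Agent.Helper37.SD Pool.Agent.Helper20.TS Pool.Agent.Helper88.D4

/-- the equations `ρ (w₀) = 1`, `ρ (χ) = 0` have at most one solution -/
theorem rho_unique {χ w₀ : Fin 2 → ℤ} (hχ : χ ≠ 0) {ρ ρ' : Fin 2 → ℝ}
    (h1 : ∑ i, ρ i * w₀ i = 1) (h2 : ∑ i, ρ i * χ i = 0) (h1' : ∑ i, ρ' i * w₀ i = 1)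
    (h2' : ∑ i, ρ' i * χ i = 0) : ρ' = ρ := by
  rw [Fin.sum_univ_two] at h1 h2 h1' h2'
  set D : ℝ := w₀ 0 * χ 1 - w₀ 1 * χ 0 with hD
  have e1 : ρ 0 * D = χ 1 := by
    rw [hD]; linear_combination (χ 1 : ℝ) * h1 - (w₀ 1 : ℝ) * h2
  have e2 : ρ 1 * D = - χ 0 := by
    rw [hD]; linear_combination -(χ 0 : ℝ) * h1 + (w₀ 0 : ℝ) * h2
  have e1' : ρ' 0 * D = χ 1 := by
    rw [hD]; linear_combination (χ 1 : ℝ) * h1' - (w₀ 1 : ℝ) * h2'
  have e2' : ρ' 1 * D = - χ 0 := by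
    rw [hD]; linear_combination -(χ 0 : ℝ) * h1' + (w₀ 0 : ℝ) * h2'
  have hD0 : D ≠ 0 := by
    intro h
    apply hχ
    rw [h, mul_zero] at e1 e2
    funext i
    fin_cases i
    · have : (χ 0 : ℝ) = 0 := by linarith
      exact_mod_cast this
    · have : (χ 1 : ℝ) = 0 := by linarith
      exact_mod_cast this
  funext i
  fin_cases i
  · exact mul_right_cancel₀ hD0 (e1'.trans e1.symm)
  · exact mul_right_cancel₀ hD0 (e2'.trans e2.symm)

variable {K : Type} [Field K] [Algebra ℂ K]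

/-- a real combination of the fields of the torus -/
noncomputable def hd {r : ℕ} (H : Fin r → Derivation ℂ K K) (ρ : Fin r → ℝ) : Derivation ℂ K K :=
  ∑ i, (ρ i : ℂ) • H i

theorem hd_apply {r : ℕ} {H : Fin r → Derivation ℂ K K} (ρ : Fin r → ℝ) {m : Fin r → ℤ} {y : K}
    (hy : IsW H m y) : hd H ρ y = ((∑ i, ρ i * m i : ℝ) : ℂ) • y := by
  rw [hd, der_sum_apply]
  push_cast
  rw [Finset.sum_smul]
  refine Finset.sum_congr rfl fun i _ => ?_
  rw [Derivation.smul_apply, hy i, smul_smul]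

theorem lie_hd {r : ℕ} {H : Fin r → Derivation ℂ K K} (h : ∀ i j, ⁅H i, H j⁆ = 0)
    (c ρ : Fin r → ℝ) : ⁅∑ i, (c i : ℂ) • H i, hd H ρ⁆ = 0 := by
  rw [hd, sum_lie]
  refine Finset.sum_eq_zero fun i _ => ?_
  rw [lie_sum]
  refine Finset.sum_eq_zero fun j _ => ?_
  rw [smul_lie, lie_smul, h i j, smul_zero, smul_zero]

theorem hd_two {H : Fin 2 → Derivation ℂ K K} (ρ : Fin 2 → ℝ) (x : K) :
    hd H ρ x = (ρ 0 : ℂ) • H 0 x + (ρ 1 : ℂ) • H 1 x := by
  rw [hd, Fin.sum_univ_two]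
  rfl

theorem homBra_hd {J : Bra K} (hJ : IsAlt J) {H : Fin 2 → Derivation ℂ K K} {w₀ : Fin 2 → ℤ}
    (hJw : ∀ i, HomBra (H i) (w₀ i : ℂ) J) {ρ : Fin 2 → ℝ} (h : ∑ i, ρ i * w₀ i = 1) :
    HomBra (hd H ρ) 1 J := by
  intro x y z w
  rw [Fin.sum_univ_two] at h
  have h1 : algebraMap ℂ K (ρ 0) * algebraMap ℂ K (w₀ 0) +
      algebraMap ℂ K (ρ 1) * algebraMap ℂ K (w₀ 1) = 1 := by
    rw [← map_mul, ← map_mul, ← map_add, ← map_one (algebraMap ℂ K)]
    congr 1
    exact_mod_cast h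
  rw [hd_two, hd_two, hd_two, hd_two, hd_two, hJw 0 x y z w, hJw 1 x y z w, map_add,
    Helper80.D4.j1_add hJ, Helper80.D4.j2_add hJ, Helper80.D4.j3_add hJ,
    Helper80.D4.j1_smul hJ, Helper80.D4.j2_smul hJ, Helper80.D4.j3_smul hJ,
    Helper80.D4.j1_smul hJ, Helper80.D4.j2_smul hJ, Helper80.D4.j3_smul hJ,
    Derivation.map_smul, Derivation.map_smul]
  simp only [Algebra.smul_def, map_one]
  linear_combination (-(J y z w x)) * h1

/-- **growth of the weight spaces, rank 2** -/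
theorem s_W2n (hPT : S_PT) (hSZ : S_Z) (hZu : S_Zu) (hREG : S_REG) (hWW : S_WW) (hWV : S_WV)
    (hWR : S_WR) (hWN : S_WN) (hW0 : S_W0) (hV4 : S_V4W) (hEX : S_EX1) : S_W2n := by
  intro K _ _ R ξ J v a V H c hC hM hT χ α hα hαH hχ hlt Z hZ hZc
  obtain ⟨w₀, hJw, hw0⟩ := hW0 K R ξ J a 2 H c hC hT
  have hLI := Helper48.D4.s_B0 K R ξ 2 H c hC.frac hT
  obtain ⟨x, y, mx, my, hxR, hyR, hx0, hy0, hx, hy, hdet⟩ := Helper80.D4.exists_indep hC.frac hT
  obtain ⟨t, Z₀, ht, hZ₀, hZ₀e⟩ :=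
    hSZ K J H α hC.trdeg hC.alt hLI hαH x y mx my hx0 hy0 hx hy hdet
  have hZw := isW_Z hC.alt hJw hα hx0 hy0 hx hy hZ₀e
  obtain ⟨p₁, q₁, hpq⟩ := hZu K J H α hC.trdeg hC.alt hLI Z Z₀ hZ hZ₀
  have hZ₀c : ∀ h, (∀ i, H i h = 0) → Z₀ h = 0 → Cst h := fun h h1 h2 => hZc h h1 (by
    rw [hpq] at h2
    simpa [h1] using h2)
  have ha : 0 < a := hM.apos
  refine ⟨1 + 8 / a, fun m hfin hm => ?_⟩
  set n : ℕ := finrank ℂ (Wsp R H m) with hn
  set d : ℝ := ∑ i, c i * m i with hd'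
  set k : ℝ := ∑ i, c i * χ i with hk
  set s : ℕ := ∑ i : Fin n, (i : ℕ) with hs
  have hs2 : (s : ℝ) * 2 = n * (n - 1) := by
    have h1 : s * 2 = n * (n - 1) := by
      rw [hs, Fin.sum_univ_eq_sum_range (fun i => i) n, Finset.sum_range_id_mul_two]
    rcases n.eq_zero_or_pos with h | h
    · rw [h] at h1
      have h2 : s = 0 := by omega
      rw [h, h2]
      simp
    · have h2 : ((s * 2 : ℕ) : ℝ) = ((n * (n - 1) : ℕ) : ℝ) := by rw [h1]
      rw [Nat.cast_mul, Nat.cast_mul, Nat.cast_sub h] at h2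
      simpa using h2
  have fin : (s : ℝ) * a ≤ 4 * n * d → (n : ℝ) ≤ (1 + 8 / a) * (d + 1) := by
    intro h
    have h0 : (1 + 8 / a) * (d + 1) = 1 + d + 8 * d / a + 8 / a := by field_simp; ring
    rw [h0]
    have h8 : 0 < 8 / a := by positivity
    have h9 : 0 ≤ 8 * d / a := by positivity
    rcases n.eq_zero_or_pos with h1 | h1
    · rw [h1]
      push_cast
      linarith
    · have h2 : (0 : ℝ) < n := by exact_mod_cast h1
      have h3 : (n : ℝ) * (((n : ℝ) - 1) * a) ≤ n * (8 * d) := by nlinarith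
      have h4 : ((n : ℝ) - 1) * a ≤ 8 * d := le_of_mul_le_mul_left h3 h2
      have h5 : (n : ℝ) - 1 ≤ 8 * d / a := by
        rw [le_div_iff₀ ha]
        exact h4
      linarith
  let b := Module.finBasis ℂ (Wsp R H m)
  let f : Fin n → K := fun j => (b j : K)
  have hfR : ∀ j, f j ∈ R := fun j => (b j).2.1
  have hfw : ∀ j, IsW H m (f j) := fun j => (b j).2.2
  have hf0 : ∀ j, f j ≠ 0 := fun j h => b.ne_zero j (Subtype.ext h)
  have hfli : LinearIndependent ℂ f := b.linearIndependent.map' (Wsp R H m).subtype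
    (Submodule.ker_subtype _)
  have hW : wr Z₀ f ≠ 0 := hWN K 2 H Z₀ (χ - w₀) hZw hZ₀c n f m hfw hfli
  have hWw := hWW K 2 H Z₀ (χ - w₀) hZw n f m hfw
  rw [← hs] at hWw
  set W : K := wr Z₀ f with hWdef
  have hcast : (((n : ℕ) : ℤ) : ℝ) = ((n : ℕ) : ℝ) := by push_cast; rfl
  have hcast' : (((s : ℕ) : ℤ) : ℝ) = ((s : ℕ) : ℝ) := by push_cast; rfl
  have hlin : ∀ ρ : Fin 2 → ℝ, ∑ i, ρ i * (((n : ℤ) • m + (s : ℤ) • (χ - w₀)) i : ℤ) =
      n * ∑ i, ρ i * m i + s * (∑ i, ρ i * χ i - ∑ i, ρ i * w₀ i) := fun ρ => by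
    rw [sum_lin, hcast, hcast']
  have hs0 : (0 : ℝ) ≤ s := Nat.cast_nonneg _
  have hn0 : (0 : ℝ) ≤ n := Nat.cast_nonneg _
  by_cases hWR' : W ∈ R
  · apply fin
    have h1 := Helper48.D4.deg_nonneg hC.toIsCone hT hWR' hW hWw
    rw [hlin, hw0, ← hk, ← hd'] at h1
    have h2 : (s : ℝ) * (a / 2) ≤ s * (a - k) := mul_le_mul_of_nonneg_left (by linarith) hs0
    nlinarith [mul_nonneg hn0 hm.le]
  · obtain ⟨u, hu, huW⟩ := hEX K R hC.frac hC.fg hC.normal W hWR'
    have hat : ∀ u, PDiv R u → 0 ≤ u.val W ∨ ∃ ρ : Fin 2 → ℝ,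
        (∀ m φ, φ ≠ 0 → IsW H m φ → u.val φ = ∑ i, ρ i * m i) ∧ ∑ i, ρ i * w₀ i = 1 ∧
          ∑ i, ρ i * χ i = 0 := fun u hu =>
      wr_at hPT hSZ hZu hREG hWW hWV hWR hC hT hα hαH hJw hZ₀ hZw hfR hf0 hfw hW hu
    obtain ⟨ρ, hρ, hρw, hρχ⟩ := (hat u hu).resolve_left (by linarith)
    have hχ0 : χ ≠ 0 := by
      intro h
      apply hχ
      rw [hk, h]
      simp
    have huW' := hρ _ W hW hWw
    rw [hlin, hρw, hρχ] at huW'
    have hnpos : 0 < n := by
      rcases n.eq_zero_or_pos with h | h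
      · exfalso
        have h1 : (n : ℝ) = 0 := by rw [h]; simp
        rw [h1] at hs2 huW'
        have h2 : (s : ℝ) = 0 := by linarith
        rw [h2] at huW'
        linarith
      · exact h
    -- the weight of the basis
    obtain ⟨N, hN⟩ : ∃ N : ℕ, (N : ℝ) = ∑ i, ρ i * m i := by
      obtain ⟨z, hz⟩ := hu.int _ (hf0 ⟨0, hnpos⟩)
      have h1 := hu.nonneg _ (hfR ⟨0, hnpos⟩) (hf0 ⟨0, hnpos⟩)
      rw [hz] at h1
      have h2 : 0 ≤ z := by exact_mod_cast h1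
      refine ⟨z.toNat, ?_⟩
      rw [← hρ m _ (hf0 ⟨0, hnpos⟩) (hfw _), hz]
      exact_mod_cast congrArg (fun z : ℤ => (z : ℝ)) (Int.toNat_of_nonneg h2)
    rw [← hN] at huW'
    have hps : n * N < s := by
      have : (n : ℝ) * N < s := by linarith
      exact_mod_cast this
    obtain ⟨p, hp⟩ : ∃ p : ℕ, s = n * N + p := ⟨s - n * N, by omega⟩
    have hp0 : 0 < p := by omega
    have hpr : (s : ℝ) = n * N + p := by exact_mod_cast hp
    -- the estimate
    have hV := hV4 K R ξ J v a V hC hM (hd H ρ) (by rw [hT.xi]; exact lie_hd hT.comm c ρ)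
      (fun x hx => by
        refine Submodule.span_mono ?_ (hT.span x hx)
        rintro y ⟨hyR, my, hy⟩
        refine ⟨hyR, ?_⟩
        by_cases hy0 : y = 0
        · exact ⟨0, 0, by rw [hy0, map_zero, smul_zero], by rw [hy0, map_zero, smul_zero]⟩
        · obtain ⟨z, hz⟩ := hu.int y hy0
          have h1 := hu.nonneg y hyR hy0
          rw [hz] at h1
          have h2 : 0 ≤ z := by exact_mod_cast h1
          refine ⟨_, z.toNat, Helper48.D4.xi_w hT hy, ?_⟩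
          rw [hd_apply ρ hy, ← hρ my y hy0 hy, hz]
          congr 1
          have h3 : ((z.toNat : ℤ) : ℂ) = ((z : ℤ) : ℂ) := by rw [Int.toNat_of_nonneg h2]
          push_cast at h3 ⊢
          exact h3.symm)
      (homBra_hd hC.alt hJw hρw) W (s * (a - k) - n * d) p hW hp0
      (by
        rw [Helper48.D4.xi_w hT hWw, hlin, hw0, ← hk, ← hd']
        congr 1
        push_cast
        ring)
      (by
        rw [hd_apply ρ hWw, hlin, hρw, hρχ, ← hN, hpr]
        congr 1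
        push_cast
        ring)
      (fun x hx i hi hpi => by
        obtain ⟨g, hg, rfl⟩ := Helper51.D4.exists_wdec (hT.span x hx)
        have hgi : ∀ m' ∈ g.support, (∑ j, ρ j * m' j : ℝ) = i := by
          have h1 : ∑ m' ∈ g.support, ((((∑ j, ρ j * m' j : ℝ) : ℂ) - (i : ℂ)) • g m') = 0 := by
            rw [Finsupp.sum, map_sum, Finset.smul_sum] at hi
            have h2 : ∑ m' ∈ g.support, ((((∑ j, ρ j * m' j : ℝ) : ℂ) - (i : ℂ)) • g m') =
                ∑ m' ∈ g.support, hd H ρ (g m') - ∑ m' ∈ g.support, (i : ℂ) • g m' := by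
              rw [← Finset.sum_sub_distrib]
              refine Finset.sum_congr rfl fun m' _ => ?_
              rw [hd_apply ρ (hg m').2, sub_smul]
            rw [h2, hi, sub_self]
          intro m' hm'
          have h3 := Helper51.D4.isW_indep g.support
            (fun m' => (((∑ j, ρ j * m' j : ℝ) : ℂ) - (i : ℂ)) • g m')
            (fun m' _ => isW_smul (hg m').2 _) h1 m' hm'
          have h4 := (smul_eq_zero.mp h3).resolve_right (Finsupp.mem_support_iff.mp hm')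
          have h5 : (((∑ j, ρ j * m' j : ℝ) : ℂ)) = ((i : ℝ) : ℂ) := by
            rw [sub_eq_zero] at h4
            rw [h4]
            push_cast
            rfl
          exact_mod_cast h5
        rw [Finsupp.sum, Finset.mul_sum]
        refine Subalgebra.sum_mem _ fun m' hm' => ?_
        by_contra hcon
        obtain ⟨u', hu', hneg⟩ := hEX K R hC.frac hC.fg hC.normal _ hcon
        have hg0 : g m' ≠ 0 := Finsupp.mem_support_iff.mp hm'
        rw [u'.map_mul _ _ hW hg0] at hneg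
        have h6 := hu'.nonneg _ (hg m').1 hg0
        obtain ⟨ρ', hρ', hρw', hρχ'⟩ := (hat u' hu').resolve_left (by linarith)
        have h7 : ρ' = ρ := rho_unique hχ0 hρw hρχ hρw' hρχ'
        rw [hρ' _ W hW hWw, hρ' m' _ hg0 (hg m').2, hlin, hρw', hρχ', h7, hgi m' hm', ← hN,
          hpr] at hneg
        have h8 : (p : ℝ) ≤ i := by exact_mod_cast hpi
        linarith)
    apply fin
    have hNn : (0 : ℝ) ≤ n * N := by positivity
    have h9 : (s : ℝ) * (a / 2) ≤ s * (a - k) := mul_le_mul_of_nonneg_left (by linarith) hs0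
    have h10 : a * (p : ℝ) ≤ a * s := mul_le_mul_of_nonneg_left (by linarith) ha.le
    nlinarith

end Pool.Agent.Helper11.D4
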