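import Pool.Agent.Helper11.D4.W2n
import Pool.Agent.Helper11.D4.EX1
import Pool.Agent.Helper12.D4.Ai
import Pool.Agent.Helper13.D4.Wr
import Pool.Agent.Helper13.D4.Ww
import Pool.Agent.Helper37.D4.V4W
import Pool.Agent.Helper38.D4.W0
import Pool.Agent.Helper75.D4.LDpd
import Pool.Agent.Helper76.D4.Fin
import Pool.Agent.Helper87.D4.Zf
import Pool.Agent.Helper96.D4.Reg

/-!
# Project D4 (MP_e1889a_ag): S_W2n from S_HT
-/

set_option autoImplicit false

namespace Pool.Agent.Helper11.D4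

open Pool.Agent.Helper88.D4

theorem w2n_of (hHT : S_HT) : S_W2n :=
  s_W2n (Helper80.D4.s_PT hHT Helper75.D4.s_LDpd Helper76.D4.s_UN Helper12.D4.s_AI)
    (Helper87.D4.s_Z Helper12.D4.s_JD Helper12.D4.s_AI) (Helper87.D4.s_Zu Helper12.D4.s_AI)
    (Helper96.D4.s_REG Helper12.D4.s_AI Helper76.D4.s_UN s_EX1) Helper13.D4.s_WW Helper13.D4.s_WV
    Helper13.D4.s_WR Helper13.D4.s_WN (Helper38.W0.s_W0 Helper12.D4.s_AI s_EX1)
    Helper37.D4.s_V4W s_EX1

end Pool.Agent.Helper11.D4
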